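import Pool.Agent.GYA.A_BAS

set_option autoImplicit false
set_option linter.unusedSectionVars false

namespace GYA

open Finset Function GY7

variable {W : Type} [Fintype W] [DecidableEq W] {A N : SimpleGraph W} {D t : ℕ} [NeZero t]

theorem AGR_mv {x : St W t} {a b : Fin t} (hab : a ≠ b) (ha : Good A N x a)
    (hb : Good A N x b) {w z : W} (hw : w ∈ blk A N x b) (hz : z ∈ blk A N x a) :
    z ≠ w ∧ z ≠ x.1 ∧ (mv x b w).2 z = a := by
  have h1 := (mem_blk_good ha).1 hz
  have h2 := (mem_blk_good hb).1 hw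
  have h3 : z ≠ w := by
    rintro rfl
    exact hab (h1.1.symm.trans h2.1)
  have h4 : z ≠ x.1 := by
    rintro rfl
    exact N.loopless.irrefl _ h1.2
  refine ⟨h3, h4, ?_⟩
  show update (update x.2 x.1 b) w 0 z = a
  rw [update_of_ne h3, update_of_ne h4]
  exact h1.1

theorem AGR_key (h : Dat A N D t) {x : St W t} (hx : IsSt A N x) {a b : Fin t} (hab : a ≠ b)
    (ha : Good A N x a) (hb : Good A N x b) {w u : W} (hw : w ∈ blk A N x b)
    (hg : Good A N (mv x b w) a) (hu : u ∈ blk A N x a) (hwu : N.Adj w u) :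
    blk A N (mv x b w) a = blk A N x a := by
  have h1 := AGR_mv hab ha hb hw hu
  refine blk_eq (u := u) h (mv_st h hx hb.1 hw) hg ha.1 (fun z hz => ?_)
    (fun z hz z' hz' hne => blk_near h hx ha hz hz' hne) hu ?_
  · have h2 := AGR_mv hab ha hb hw hz
    exact ⟨h2.1, h2.2.2⟩
  · exact (mem_blk_good hg).2 ⟨h1.2.2, hwu⟩

/-- (J1) -/
theorem agr1 (h : Dat A N D t) {x : St W t} (hx : IsSt A N x) {a b : Fin t} (hf : Far a b)
    (ha : Good A N x a) (hb : Good A N x b) (hj : ¬ NJ A N x a b)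
    (hw : ∃ w ∈ blk A N x b, Good A N (mv x b w) a) :
    ∃ w ∈ blk A N x b, Good A N (mv x b w) a ∧ blk A N (mv x b w) a = blk A N x a := by
  by_cases hs : Sees A N x a b
  · obtain ⟨u, hu, -, hall⟩ := hs
    obtain ⟨w, hwb, hg⟩ := hw
    exact ⟨w, hwb, hg, AGR_key h hx hf.ne ha hb hwb hg hu (hall w hwb).symm⟩
  · by_cases hs' : Sees A N x b a
    · obtain ⟨w, hwb, hg, hall⟩ := hs'
      obtain ⟨u, hu⟩ : (blk A N x a).Nonempty := by
        rw [← Finset.card_pos, ha.1]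
        norm_num
      exact ⟨w, hwb, hg, AGR_key h hx hf.ne ha hb hwb hg hu (hall u hu)⟩
    · exact absurd ⟨ha, hb, hs, hs'⟩ hj

/-- (J2) -/
theorem agr2 (h : Dat A N D t) {x : St W t} (hx : IsSt A N x) {a b : Fin t} (hf : Far a b)
    (ha : Good A N x a) (hb : Good A N x b) (hj : ¬ NJ A N x a b)
    (hw : ∃ w ∈ blk A N x b, Good A N (mv x b w) a) {y : W} (hy : y ∈ blk A N x a)
    (hyb : Good A N (mv x a y) b) : blk A N (mv x a y) b = blk A N x b := by
  obtain ⟨w, hwb, hg, he⟩ := agr1 h hx hf ha hb hj hw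
  rw [← he] at hy
  have h1 : N.Adj w y := ((mem_blk_good hg).1 hy).2
  rw [he] at hy
  exact AGR_key h hx hf.ne.symm hb ha hy hyb hwb h1.symm

end GYA
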