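import Pool.Agent.GYA.A_BAS

set_option autoImplicit false
set_option linter.unusedSectionVars false

namespace GYA

open Finset Function GY7

variable {W : Type} [Fintype W] [DecidableEq W] {A N : SimpleGraph W} {D t : ℕ} [NeZero t]

open Classical in
theorem NGD_nxt (j : Fin t) : (univ.filter (fun k : Fin t => Nxt j k)).card ≤ 2 := by
  have h : (univ.filter (fun k : Fin t => Nxt j k)).card ≤ ({j.val + 1, j.val - 1} : Finset ℕ).card := by
    apply Finset.card_le_card_of_injOn (fun k => k.val)
    · intro k hk
      have hk := (mem_filter.1 hk).2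
      simp only [coe_insert, coe_singleton, Set.mem_insert_iff, Set.mem_singleton_iff]
      rcases hk with hk | hk
      · left; exact hk.symm
      · right; omega
    · intro a _ b _ hab
      exact Fin.ext hab
  exact h.trans Finset.card_le_two

open Classical in
/-- the number of columns which are not good -/
theorem ngood (h : Dat A N D t) {x : St W t} (hx : IsSt A N x) :
    (univ.filter (fun k => ¬ Good A N x k)).card ≤ 4 * D + 3 := by
  have h1 : (univ.filter (fun k => (blk A N x k).card ≠ 3)).card ≤ 2 * D + 3 := by
    have hs : 3 * t + (univ.filter (fun k => (blk A N x k).card ≠ 3)).card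
        ≤ ∑ k : Fin t, (blk A N x k).card := by
      rw [Finset.card_filter]
      have : 3 * t = ∑ k : Fin t, 3 := by simp [mul_comm]
      rw [this, ← Finset.sum_add_distrib]
      apply Finset.sum_le_sum
      intro k _
      have := three_le h hx k
      split_ifs with h3
      · omega
      · omega
    have h2 := sum_cost h x.2 x.1
    have h3 : ∑ k : Fin t, (blk A N x k).card = ∑ k, (cs A N t).cost x.2 x.1 k :=
      Finset.sum_congr rfl fun k _ => card_blk x k
    have := h.t_ge
    omega
  have h2 : (univ.filter (fun k => ¬ Clean A x k)).card ≤ 2 * D := by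
    have hsub : univ.filter (fun k => ¬ Clean A x k) ⊆
        (nb A x.1).biUnion (fun u => univ.filter (fun k => Nxt (x.2 u) k)) := by
      intro k hk
      have hk := (mem_filter.1 hk).2
      unfold Clean at hk
      push Not at hk
      obtain ⟨u, hu, hn⟩ := hk
      exact mem_biUnion.2 ⟨u, mem_nb.2 hu, mem_filter.2 ⟨mem_univ _, hn⟩⟩
    refine (card_le_card hsub).trans (card_biUnion_le.trans ?_)
    refine (Finset.sum_le_card_nsmul _ _ 2 fun u _ => NGD_nxt (x.2 u)).trans ?_
    have := h.degA x.1
    simp only [smul_eq_mul]
    omega
  have hsub : univ.filter (fun k => ¬ Good A N x k) ⊆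
      univ.filter (fun k => (blk A N x k).card ≠ 3) ∪ univ.filter (fun k => ¬ Clean A x k) := by
    intro k hk
    have hk := (mem_filter.1 hk).2
    rw [mem_union, mem_filter, mem_filter]
    unfold Good at hk
    by_cases h3 : (blk A N x k).card = 3
    · exact Or.inr ⟨mem_univ _, fun hc => hk ⟨h3, hc⟩⟩
    · exact Or.inl ⟨mem_univ _, h3⟩
  have := (card_le_card hsub).trans (card_union_le _ _)
  omega

end GYA
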