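import Pool.Agent.GYA.A_LM3
import Pool.Agent.GYA.A_NGD

set_option autoImplicit false
set_option linter.unusedSectionVars false

namespace GYA

open Finset Function GY7

variable {W : Type} [Fintype W] [DecidableEq W] {A N : SimpleGraph W} {D t : ℕ} [NeZero t]

open Classical in
/-- pairs of columns of which exactly one is good -/
theorem AVG_b (h : Dat A N D t) {x : St W t} (hx : IsSt A N x) :
    (univ.filter (fun p : Fin t × Fin t => Far p.1 p.2 ∧
      ((Good A N x p.1 ∧ ¬ Good A N x p.2) ∨ (¬ Good A N x p.1 ∧ Good A N x p.2)))).card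
      ≤ 2 * ((4 * D + 3) * t) := by
  have h1 : (univ.filter (fun p : Fin t × Fin t => Far p.1 p.2 ∧
      ((Good A N x p.1 ∧ ¬ Good A N x p.2) ∨ (¬ Good A N x p.1 ∧ Good A N x p.2)))) ⊆
      ((univ.filter (fun k => ¬ Good A N x k)) ×ˢ (univ : Finset (Fin t))) ∪
      ((univ : Finset (Fin t)) ×ˢ (univ.filter (fun k => ¬ Good A N x k))) := by
    intro p hp
    rw [mem_filter] at hp
    rw [mem_union, mem_product, mem_product, mem_filter, mem_filter]
    rcases hp.2.2 with h2 | h2
    · exact Or.inr ⟨mem_univ _, mem_univ _, h2.2⟩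
    · exact Or.inl ⟨⟨mem_univ _, h2.1⟩, mem_univ _⟩
  refine (card_le_card h1).trans ((card_union_le _ _).trans ?_)
  rw [card_product, card_product, card_univ, Fintype.card_fin]
  have h2 := ngood h hx
  have h3 := Nat.mul_le_mul_right t h2
  have h4 := Nat.mul_le_mul_left t h2
  rw [Nat.mul_comm t (4 * D + 3)] at h4
  omega

open Classical in
/-- **Averaging**: a state with few pairs of columns which are not joined. -/
theorem avg (h : Dat A N D t) : ∃ x : St W t, IsSt A N x ∧
    (univ.filter (fun p : Fin t × Fin t => Far p.1 p.2 ∧ NJ A N x p.1 p.2)).card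
      ≤ (4 * D + 3) * t := by
  have hne : (univ.filter (fun x : St W t => IsSt A N x)).Nonempty := by
    obtain ⟨x, hx⟩ := exists_state h
    exact ⟨x, mem_filter.mpr ⟨mem_univ _, hx⟩⟩
  have h1 : ∑ x ∈ univ.filter (fun x : St W t => IsSt A N x),
      2 * (univ.filter (fun p : Fin t × Fin t => Far p.1 p.2 ∧ NJ A N x p.1 p.2)).card ≤
      ∑ x ∈ univ.filter (fun x : St W t => IsSt A N x),
        (univ.filter (fun p : Fin t × Fin t => Far p.1 p.2 ∧
        ((Good A N x p.1 ∧ ¬ Good A N x p.2) ∨ (¬ Good A N x p.1 ∧ Good A N x p.2)))).card := by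
    rw [← mul_sum]
    have e1 : ∀ (Q : St W t → Fin t × Fin t → Prop) [∀ x p, Decidable (Q x p)],
        ∑ x ∈ univ.filter (fun x : St W t => IsSt A N x),
          (univ.filter (fun p : Fin t × Fin t => Far p.1 p.2 ∧ Q x p)).card =
        ∑ p ∈ univ.filter (fun p : Fin t × Fin t => Far p.1 p.2),
          (univ.filter (fun x : St W t => IsSt A N x ∧ Q x p)).card := by
      intro Q _
      have e2 : ∀ x, (univ.filter (fun p : Fin t × Fin t => Far p.1 p.2 ∧ Q x p)).card =
          ∑ p ∈ univ.filter (fun p : Fin t × Fin t => Far p.1 p.2), if Q x p then 1 else 0 := by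
        intro x
        rw [card_filter, sum_filter]
        refine sum_congr rfl fun p _ => ?_
        by_cases hp : Far p.1 p.2
        · simp [hp]
        · simp [hp]
      have e3 : ∀ p, (univ.filter (fun x : St W t => IsSt A N x ∧ Q x p)).card =
          ∑ x ∈ univ.filter (fun x : St W t => IsSt A N x), if Q x p then 1 else 0 := by
        intro p
        rw [card_filter, sum_filter]
        refine sum_congr rfl fun x _ => ?_
        by_cases hx : IsSt A N x
        · simp [hx]
        · simp [hx]
      rw [sum_congr rfl fun x _ => e2 x, sum_congr rfl fun p _ => e3 p, sum_comm]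
    rw [e1 (fun x p => NJ A N x p.1 p.2), e1 (fun x p => (Good A N x p.1 ∧ ¬ Good A N x p.2) ∨
      (¬ Good A N x p.1 ∧ Good A N x p.2)), mul_sum]
    refine sum_le_sum fun p hp => ?_
    exact lm3 h (mem_filter.mp hp).2
  have h2 : ∑ x ∈ univ.filter (fun x : St W t => IsSt A N x),
      2 * (univ.filter (fun p : Fin t × Fin t => Far p.1 p.2 ∧ NJ A N x p.1 p.2)).card ≤
      ∑ x ∈ univ.filter (fun x : St W t => IsSt A N x), 2 * ((4 * D + 3) * t) :=
    h1.trans (sum_le_sum fun x hx => AVG_b h (mem_filter.mp hx).2)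
  obtain ⟨x, hx, hle⟩ := exists_le_of_sum_le hne h2
  exact ⟨x, (mem_filter.mp hx).2, by omega⟩

end GYA
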