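import Pool.Agent.GYA.A_SYS

set_option autoImplicit false
set_option linter.unusedSectionVars false

namespace GYA

open Finset Function GY7

variable {W : Type} [Fintype W] [DecidableEq W] {A N : SimpleGraph W} {D t : ℕ} [NeZero t]
  {x : St W t} {k : Fin t} {w : W}

theorem three_le (h : Dat A N D t) (hx : IsSt A N x) (k : Fin t) : 3 ≤ (blk A N x k).card := by
  obtain ⟨-, k0, hmin, T, hT, hxT⟩ := hx
  obtain ⟨hc, hcl⟩ := (cs A N t).mem_k4.mp hT
  have h1 := (cs A N t).clq_card_le hcl hxT
  have h2 := (cs A N t).min_cost hmin.1 x.1 k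
  rw [Sys.cost_update_self] at h1
  rw [Sys.cost_update_self, Sys.cost_update_self] at h2
  rw [card_blk]
  omega

theorem good_min (h : Dat A N D t) (hx : IsSt A N x) (hk : (blk A N x k).card = 3) :
    (cs A N t).IsMin (update x.2 x.1 k) ∧
    insert x.1 (blk A N x k) ∈ (cs A N t).k4 (update x.2 x.1 k) := by
  obtain ⟨-, k0, hmin, T, hT, hxT⟩ := hx
  have hcost : (cs A N t).cost (update x.2 x.1 k0) x.1 k = 3 := by
    rw [Sys.cost_update_self, ← card_blk]
    exact hk
  obtain ⟨h1, T', hT', hxT'⟩ := (cs A N t).move hmin (fun φ hφ v => cost_le_three h φ hφ v) hT hxT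
    hcost
  rw [update_idem] at h1 hT'
  refine ⟨h1, ?_⟩
  obtain ⟨hc, hcl⟩ := (cs A N t).mem_k4.mp hT'
  have h2 : T'.erase x.1 ⊆ blk A N x k := by
    intro a ha
    obtain ⟨ha1, ha2⟩ := Finset.mem_erase.mp ha
    rw [mem_blk]
    exact ((cs A N t).H_update_self x.2 x.1 k ha1).mp (hcl x.1 hxT' a ha2 (Ne.symm ha1))
  have h3 : T'.erase x.1 = blk A N x k := by
    apply Finset.eq_of_subset_of_card_le h2
    rw [hk, Finset.card_erase_of_mem hxT', hc]
  rw [← h3, Finset.insert_erase hxT']
  exact hT'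

theorem notMem_blk : x.1 ∉ blk A N x k := by
  rw [mem_blk]
  exact (cs A N t).irr _ _ _

theorem A_BAS_ne {u : W} (hu : u ∈ blk A N x k) : u ≠ x.1 := by
  rintro rfl
  exact notMem_blk hu

/-- the block is a clique of the conflict graph -/
theorem blk_clq (h : Dat A N D t) (hx : IsSt A N x) (hk : (blk A N x k).card = 3) :
    ∀ a ∈ blk A N x k, ∀ b ∈ blk A N x k, a ≠ b → ((cs A N t).H x.2).Adj a b := by
  intro a ha b hb hab
  have h1 := ((cs A N t).mem_k4.mp (good_min h hx hk).2).2 a (Finset.mem_insert_of_mem ha) b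
    (Finset.mem_insert_of_mem hb) hab
  exact ((cs A N t).H_update_of_ne x.2 x.1 k (A_BAS_ne ha) (A_BAS_ne hb)).mp h1

/-- the block is a component of the conflict graph without the vertex in hand -/
theorem blk_comp (h : Dat A N D t) (hx : IsSt A N x) (hk : (blk A N x k).card = 3) :
    ∀ a ∈ blk A N x k, ∀ b, b ≠ x.1 → ((cs A N t).H x.2).Adj a b → b ∈ blk A N x k := by
  intro a ha b hb hab
  obtain ⟨h1, h2⟩ := good_min h hx hk
  have h3 := ((cs A N t).H_update_of_ne x.2 x.1 k (A_BAS_ne ha) hb).mpr hab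
  have h4 := (cs A N t).closed4 (fun v => cost_le_three h _ h1.1 v) h2
    (Finset.mem_insert_of_mem ha) h3
  rcases Finset.mem_insert.mp h4 with h5 | h5
  · exact absurd h5 hb
  · exact h5

theorem mv_st (h : Dat A N D t) (hx : IsSt A N x) (hk : (blk A N x k).card = 3)
    (hw : w ∈ blk A N x k) : IsSt A N (mv x k w) := by
  obtain ⟨h1, h2⟩ := good_min h hx hk
  have e : update (mv x k w).2 (mv x k w).1 ((update x.2 x.1 k) w) = update x.2 x.1 k := by
    show update (update (update x.2 x.1 k) w 0) w ((update x.2 x.1 k) w) = update x.2 x.1 k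
    rw [update_idem, update_eq_self]
  refine ⟨?_, (update x.2 x.1 k) w, ?_, insert x.1 (blk A N x k), ?_, ?_⟩
  · show update (update x.2 x.1 k) w 0 w = 0
    rw [update_self]
  · rw [e]
    exact h1
  · rw [e]
    exact h2
  · exact Finset.mem_insert_of_mem hw

theorem mem_blk_good (hk : Good A N x k) {u : W} :
    u ∈ blk A N x k ↔ x.2 u = k ∧ N.Adj x.1 u := by
  rw [mem_blk]
  constructor
  · rintro (⟨h1, h2⟩ | ⟨h1, h2⟩)
    · exact ⟨h1.symm, h2⟩
    · exact absurd (Or.symm h1) (hk.2 u h2)
  · rintro ⟨h1, h2⟩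
    exact Or.inl ⟨h1.symm, h2⟩

theorem mv_blk (h : Dat A N D t) (hx : IsSt A N x) (hk : Good A N x k)
    (hw : w ∈ blk A N x k) : blk A N (mv x k w) k = insert x.1 ((blk A N x k).erase w) := by
  obtain ⟨h1, h2⟩ := good_min h hx hk.1
  have hwx := A_BAS_ne hw
  have hwk : (update x.2 x.1 k) w = k := by
    rw [update_of_ne hwx]
    exact ((mem_blk_good hk).mp hw).1
  have hcl := ((cs A N t).mem_k4.mp h2).2
  have key : ∀ u, u ≠ w → (u ∈ blk A N (mv x k w) k ↔
      ((cs A N t).H (update x.2 x.1 k)).Adj w u) := by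
    intro u hu
    rw [mem_blk]
    show (cs A N t).C k (update (update x.2 x.1 k) w 0 u) w u ↔
      (cs A N t).C ((update x.2 x.1 k) w) ((update x.2 x.1 k) u) w u
    rw [update_of_ne hu, hwk]
  ext u
  by_cases hu : u = w
  · subst hu
    constructor
    · intro h3
      exact absurd rfl (A_BAS_ne h3)
    · intro h3
      rcases Finset.mem_insert.mp h3 with h4 | h4
      · exact absurd h4 hwx
      · exact absurd h4 (Finset.notMem_erase _ _)
  · rw [key u hu]
    constructor
    · intro h3
      have h4 := (cs A N t).closed4 (fun v => cost_le_three h _ h1.1 v) h2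
        (Finset.mem_insert_of_mem hw) h3
      rcases Finset.mem_insert.mp h4 with h5 | h5
      · rw [h5]
        exact Finset.mem_insert_self _ _
      · exact Finset.mem_insert_of_mem (Finset.mem_erase.mpr ⟨hu, h5⟩)
    · intro h3
      have h4 : u ∈ insert x.1 (blk A N x k) := by
        rcases Finset.mem_insert.mp h3 with h5 | h5
        · rw [h5]
          exact Finset.mem_insert_self _ _
        · exact Finset.mem_insert_of_mem (Finset.mem_of_mem_erase h5)
      exact hcl w (Finset.mem_insert_of_mem hw) u h4 (Ne.symm hu)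

theorem mv_good (h : Dat A N D t) (hx : IsSt A N x) (hk : Good A N x k)
    (hw : w ∈ blk A N x k) : Good A N (mv x k w) k := by
  have hb := mv_blk h hx hk hw
  refine ⟨?_, ?_⟩
  · rw [hb, Finset.card_insert_of_notMem, Finset.card_erase_of_mem hw, hk.1]
    intro h3
    exact notMem_blk (Finset.mem_of_mem_erase h3)
  · intro u hu hn
    have hu' : A.Adj w u := hu
    have hne : u ≠ w := by
      rintro rfl
      exact A.loopless.irrefl _ hu'
    have h3 : u ∈ blk A N (mv x k w) k := by
      rw [mem_blk]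
      exact Or.inr ⟨Or.symm hn, hu'⟩
    have hcol : (mv x k w).2 u = k := by
      show update (update x.2 x.1 k) w 0 u = k
      rw [update_of_ne hne]
      rw [hb] at h3
      rcases Finset.mem_insert.mp h3 with h4 | h4
      · rw [h4, update_self]
      · have h5 := Finset.mem_of_mem_erase h4
        rw [update_of_ne (A_BAS_ne h5)]
        exact ((mem_blk_good hk).mp h5).1
    rw [hcol] at hn
    rcases hn with hn | hn <;> omega

/-- the vertices of a good block are near to each other -/
theorem blk_near (h : Dat A N D t) (hx : IsSt A N x) (hk : Good A N x k) {a b : W}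
    (ha : a ∈ blk A N x k) (hb : b ∈ blk A N x k) (hab : a ≠ b) : N.Adj a b := by
  have h1 := blk_clq h hx hk.1 a ha b hb hab
  have ha' := ((mem_blk_good hk).mp ha).1
  have hb' := ((mem_blk_good hk).mp hb).1
  have h2 : (cs A N t).C (x.2 a) (x.2 b) a b := h1
  rw [ha', hb'] at h2
  rcases h2 with h2 | h2
  · exact h2.2
  · rcases h2.1 with h3 | h3 <;> omega

/-- a good block which meets a triangle of the same column is equal to it -/
theorem blk_eq (h : Dat A N D t) (hx : IsSt A N x) (hk : Good A N x k) {T : Finset W}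
    (hT : T.card = 3) (hTk : ∀ a ∈ T, a ≠ x.1 ∧ x.2 a = k)
    (hTN : ∀ a ∈ T, ∀ b ∈ T, a ≠ b → N.Adj a b) {u : W} (hu : u ∈ T)
    (hxu : u ∈ blk A N x k) : blk A N x k = T := by
  symm
  apply Finset.eq_of_subset_of_card_le
  · intro b hb
    by_cases hbu : b = u
    · rw [hbu]
      exact hxu
    · apply blk_comp h hx hk.1 u hxu b (hTk b hb).1
      show (cs A N t).C (x.2 u) (x.2 b) u b
      exact Or.inl ⟨(hTk u hu).2.trans (hTk b hb).2.symm, hTN u hu b hb (Ne.symm hbu)⟩
  · rw [hk.1, hT]

end GYA
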