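import Mathlib

set_option autoImplicit false

/-!
# The counting behind Lemma 3
-/

namespace GYA

open Finset

variable {α β γ : Type} [DecidableEq α] [DecidableEq β] [DecidableEq γ]

omit [DecidableEq α] in
/-- The fibres over a set of values. -/
theorem CNT_fib (S : Finset α) (p : α → β)
    (hS : ∀ x ∈ S, (S.filter (fun y => p y = p x)).card = 4) (J : Finset α) (hJ : J ⊆ S) :
    (S.filter (fun y => p y ∈ J.image p)).card = 4 * (J.image p).card := by
  rw [card_eq_sum_card_fiberwise (f := p) (s := S.filter (fun y => p y ∈ J.image p))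
    (t := J.image p) (fun x hx => (mem_filter.1 hx).2)]
  rw [mul_comm, ← smul_eq_mul, ← sum_const]
  refine sum_congr rfl fun b hb => ?_
  obtain ⟨x, hx, rfl⟩ := mem_image.1 hb
  rw [← hS x (hJ hx)]
  congr 1
  ext y
  simp only [mem_filter]
  constructor
  · rintro ⟨⟨h1, -⟩, h2⟩
    exact ⟨h1, h2⟩
  · rintro ⟨h1, h2⟩
    exact ⟨⟨h1, by rw [h2]; exact hb⟩, h2⟩

/-- The elements of the fibres through `Y`, without `Y`. -/
theorem CNT_three (S S' Y : Finset α) (q : α → γ)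
    (hS' : ∀ x ∈ S', (S'.filter (fun y => q y = q x)).card = 4) (hY : Y ⊆ S ∩ S')
    (h : ∀ y ∈ Y, ∀ z ∈ S', q y = q z → z ≠ y → z ∉ S) :
    (Y.biUnion (fun y => (S'.filter (fun z => q z = q y)).erase y)).card = 3 * Y.card := by
  rw [card_biUnion]
  · rw [mul_comm, ← smul_eq_mul, ← sum_const]
    refine sum_congr rfl fun y hy => ?_
    have hy' := mem_inter.1 (hY hy)
    have h1 : y ∈ S'.filter (fun z => q z = q y) := mem_filter.2 ⟨hy'.2, rfl⟩
    rw [card_erase_of_mem h1, hS' y hy'.2]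
  · intro y hy y' hy' hne
    refine disjoint_left.2 ?_
    intro z hz hz'
    have h1 := (mem_filter.1 (mem_of_mem_erase hz)).2
    have h2 := (mem_filter.1 (mem_of_mem_erase hz')).2
    have h3 := mem_inter.1 (hY hy')
    exact h y hy y' h3.2 (h1.symm.trans h2) hne.symm h3.1

omit [DecidableEq γ] in
/-- One side. -/
theorem CNT_side (S S' J : Finset α) (p : α → β)
    (hS : ∀ x ∈ S, (S.filter (fun y => p y = p x)).card = 4)
    (hJ : J ⊆ S ∩ S') :
    ((S \ S').filter (fun y => p y ∈ J.image p)).card +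
      (((S ∩ S') \ J).filter (fun y => p y ∈ J.image p)).card + J.card =
      4 * (J.image p).card := by
  rw [← CNT_fib S p hS J (fun x hx => (mem_inter.1 (hJ hx)).1)]
  have h1 : S.filter (fun y => p y ∈ J.image p) =
      ((S \ S').filter (fun y => p y ∈ J.image p) ∪
        ((S ∩ S') \ J).filter (fun y => p y ∈ J.image p)) ∪ J := by
    ext y
    simp only [mem_filter, mem_union, mem_sdiff, mem_inter]
    constructor
    · rintro ⟨h1, h2⟩
      by_cases h3 : y ∈ J
      · exact Or.inr h3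
      · by_cases h4 : y ∈ S'
        · exact Or.inl (Or.inr ⟨⟨⟨h1, h4⟩, h3⟩, h2⟩)
        · exact Or.inl (Or.inl ⟨⟨h1, h4⟩, h2⟩)
    · rintro ((⟨⟨h1, -⟩, h2⟩ | ⟨⟨⟨h1, -⟩, -⟩, h2⟩) | h)
      · exact ⟨h1, h2⟩
      · exact ⟨h1, h2⟩
      · exact ⟨(mem_inter.1 (hJ h)).1, mem_image_of_mem p h⟩
  rw [h1, card_union_of_disjoint, card_union_of_disjoint]
  · rw [disjoint_left]
    intro y hy hy'
    exact (mem_sdiff.1 (mem_filter.1 hy).1).2
      (mem_inter.1 (mem_sdiff.1 (mem_filter.1 hy').1).1).2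
  · rw [disjoint_left]
    intro y hy hy'
    rcases mem_union.1 hy with h | h
    · exact (mem_sdiff.1 (mem_filter.1 h).1).2 (mem_inter.1 (hJ hy')).2
    · exact (mem_sdiff.1 (mem_filter.1 h).1).2 hy'

/-- The elements of the second kind are different from those of the first kind. -/
theorem CNT_bound (S S' J : Finset α) (p : α → β) (q : α → γ)
    (hS' : ∀ x ∈ S', (S'.filter (fun y => q y = q x)).card = 4)
    (hJ : J ⊆ S ∩ S')
    (h1 : ∀ x ∈ J, ∀ y ∈ S ∩ S', y ∉ J → p x = p y → ∀ z ∈ S', q y = q z → z ≠ y → z ∉ S) :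
    ((S' \ S).filter (fun y => q y ∈ J.image q)).card +
      3 * (((S ∩ S') \ J).filter (fun y => p y ∈ J.image p)).card ≤ (S' \ S).card := by
  have hY : ∀ y ∈ ((S ∩ S') \ J).filter (fun y => p y ∈ J.image p),
      ∀ z ∈ S', q y = q z → z ≠ y → z ∉ S := by
    intro y hy z hz hq hne
    obtain ⟨h2, h3⟩ := mem_filter.1 hy
    obtain ⟨h4, h5⟩ := mem_sdiff.1 h2
    obtain ⟨x, hx, hxy⟩ := mem_image.1 h3
    exact h1 x hx y h4 h5 hxy z hz hq hne
  rw [← CNT_three S S' _ q hS' (fun y hy => (mem_sdiff.1 (mem_filter.1 hy).1).1) hY,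
    ← card_union_of_disjoint]
  · apply card_le_card
    intro z hz
    rcases mem_union.1 hz with h | h
    · exact (mem_filter.1 h).1
    · obtain ⟨y, hy, hzy⟩ := mem_biUnion.1 h
      obtain ⟨hne, hz2⟩ := mem_erase.1 hzy
      obtain ⟨hz3, hz4⟩ := mem_filter.1 hz2
      exact mem_sdiff.2 ⟨hz3, hY y hy z hz3 hz4.symm hne⟩
  · rw [disjoint_left]
    intro z hz hz'
    obtain ⟨y, hy, hzy⟩ := mem_biUnion.1 hz'
    obtain ⟨hne, hz2⟩ := mem_erase.1 hzy
    obtain ⟨hz3, hz4⟩ := mem_filter.1 hz2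
    obtain ⟨x, hx, hxz⟩ := mem_image.1 (mem_filter.1 hz).2
    have hxJ := mem_inter.1 (hJ hx)
    refine hY y hy x hxJ.2 (hz4.symm.trans hxz.symm) ?_ hxJ.1
    rintro rfl
    exact (mem_sdiff.1 (mem_filter.1 hy).1).2 hx

/-- `S`, `S'`: the states for which `k`, `k'` is good; `p`, `q`: their nodes; `J`: the states which
are not joined. -/
theorem cnt (S S' J : Finset α) (p : α → β) (q : α → γ)
    (hS : ∀ x ∈ S, (S.filter (fun y => p y = p x)).card = 4)
    (hS' : ∀ x ∈ S', (S'.filter (fun y => q y = q x)).card = 4)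
    (hJ : J ⊆ S ∩ S')
    (hfor : J.card ≤ (J.image p).card + (J.image q).card)
    (h1 : ∀ x ∈ J, ∀ y ∈ S ∩ S', y ∉ J → p x = p y → ∀ z ∈ S', q y = q z → z ≠ y → z ∉ S)
    (h2 : ∀ x ∈ J, ∀ y ∈ S ∩ S', y ∉ J → q x = q y → ∀ z ∈ S, p y = p z → z ≠ y → z ∉ S') :
    2 * J.card ≤ ((S \ S') ∪ (S' \ S)).card := by
  have hJ' : J ⊆ S' ∩ S := by rw [inter_comm]; exact hJ
  have e1 := CNT_side S S' J p hS hJ
  have e2 := CNT_side S' S J q hS' hJ'
  have e3 := CNT_bound S S' J p q hS' hJ h1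
  have e4 := CNT_bound S' S J q p hS hJ' (fun x hx y hy hn hq z hz hp hne =>
    h2 x hx y (by rw [inter_comm]; exact hy) hn hq z hz hp hne)
  have e5 : ((S \ S') ∪ (S' \ S)).card = (S \ S').card + (S' \ S).card := by
    apply card_union_of_disjoint
    rw [disjoint_left]
    intro y hy hy'
    exact (mem_sdiff.1 hy).2 (mem_sdiff.1 hy').1
  rw [e5]
  omega

end GYA
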