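import Pool.Agent.GYA.A_BAS

set_option autoImplicit false
set_option linter.unusedSectionVars false

namespace GYA

open Finset Function GY7

variable {W : Type} [Fintype W] [DecidableEq W] {A N : SimpleGraph W} {D t : ℕ} [NeZero t]
  {x y z : St W t} {k k' : Fin t} {w : W}

theorem Gm.refl (x : St W t) : Gm k k' x x := fun _ _ _ _ => Iff.rfl

theorem Gm.symm (h : Gm k k' x y) : Gm k k' y x := fun u j h1 h2 => (h u j h1 h2).symm

theorem Gm.trans (h : Gm k k' x y) (h' : Gm k k' y z) : Gm k k' x z :=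
  fun u j h1 h2 => (h u j h1 h2).trans (h' u j h1 h2)

theorem sta_mv {l : Fin t} (hk : Good A N x l) (hw : w ∈ blk A N x l) (u : W) (j : Fin t)
    (hj : j ≠ l) : (u ≠ x.1 ∧ x.2 u = j) ↔ (u ≠ (mv x l w).1 ∧ (mv x l w).2 u = j) := by
  have hwl : x.2 w = l := ((mem_blk_good hk).1 hw).1
  show (u ≠ x.1 ∧ x.2 u = j) ↔ (u ≠ w ∧ update (update x.2 x.1 l) w 0 u = j)
  constructor
  · rintro ⟨h1, h2⟩
    have h3 : u ≠ w := by
      rintro rfl
      exact hj (h2.symm.trans hwl)
    exact ⟨h3, by rw [update_of_ne h3, update_of_ne h1, h2]⟩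
  · rintro ⟨h1, h2⟩
    rw [update_of_ne h1] at h2
    have h3 : u ≠ x.1 := by
      rintro rfl
      rw [update_self] at h2
      exact hj h2.symm
    rw [update_of_ne h3] at h2
    exact ⟨h3, h2⟩

theorem gm_mv (hk : Good A N x k) (hw : w ∈ blk A N x k) : Gm k k' x (mv x k w) :=
  fun u j h1 _ => sta_mv hk hw u j h1

theorem gm_mv' (hk : Good A N x k') (hw : w ∈ blk A N x k') : Gm k k' x (mv x k' w) :=
  fun u j _ h2 => sta_mv hk hw u j h2

theorem sta_clean {l : Fin t} (hl : ∀ j : Fin t, Nxt j l → j ≠ k ∧ j ≠ k')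
    (hg : Gm k k' x y) (he : x.1 = y.1) (hc : Clean A x l) : Clean A y l := by
  intro u hu hn
  obtain ⟨h1, h2⟩ := hl _ hn
  have hne : u ≠ y.1 := fun h => by
    rw [h] at hu
    exact A.loopless.irrefl _ hu
  have h3 := (hg u (y.2 u) h1 h2).2 ⟨hne, rfl⟩
  rw [← he] at hu
  exact hc u hu (by rw [h3.2]; exact hn)

theorem sta_blk {l : Fin t} (hc : Clean A y l) {u : W} :
    u ∈ blk A N y l ↔ y.2 u = l ∧ N.Adj y.1 u := by
  rw [mem_blk]
  constructor
  · rintro (⟨h1, h2⟩ | ⟨h1, h2⟩)
    · exact ⟨h1.symm, h2⟩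
    · exact absurd (Or.symm h1) (hc u h2)
  · rintro ⟨h1, h2⟩
    exact Or.inl ⟨h1.symm, h2⟩

/-- **The static lemma**: whether both columns are good only depends on the vertex in hand. -/
theorem sta (h : Dat A N D t) (hf : Far k k') (hx : IsSt A N x) (hy : IsSt A N y)
    (hg : Gm k k' x y) (he : x.1 = y.1) (hk : Good A N x k) (hk' : Good A N x k') :
    Good A N y k ∧ Good A N y k' := by
  have hl : ∀ j : Fin t, Nxt j k → j ≠ k ∧ j ≠ k' := by
    intro j hj
    constructor
    · rintro rfl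
      rcases hj with hj | hj <;> omega
    · rintro rfl
      rcases hj with hj | hj <;> rcases hf with hf | hf <;> omega
  have hl' : ∀ j : Fin t, Nxt j k' → j ≠ k ∧ j ≠ k' := by
    intro j hj
    constructor
    · rintro rfl
      rcases hj with hj | hj <;> rcases hf with hf | hf <;> omega
    · rintro rfl
      rcases hj with hj | hj <;> omega
  have hc := sta_clean hl hg he hk.2
  have hc' := sta_clean hl' hg he hk'.2
  have hd : ∀ s : St W t, Clean A s k → Clean A s k' →
      Disjoint (blk A N s k) (blk A N s k') := by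
    intro s h1 h2
    rw [Finset.disjoint_left]
    intro u hu hu'
    exact hf.ne (((sta_blk h1).1 hu).1.symm.trans ((sta_blk h2).1 hu').1)
  have hin : ∀ u, u ≠ y.1 → ((x.2 u = k ∨ x.2 u = k') ↔ (y.2 u = k ∨ y.2 u = k')) := by
    intro u hu
    constructor
    · intro h1
      by_contra h2
      push Not at h2
      have h3 := (hg u (y.2 u) h2.1 h2.2).2 ⟨hu, rfl⟩
      rcases h1 with h1 | h1
      · exact h2.1 (h3.2.symm.trans h1)
      · exact h2.2 (h3.2.symm.trans h1)
    · intro h1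
      by_contra h2
      push Not at h2
      have h3 := (hg u (x.2 u) h2.1 h2.2).1 ⟨by rw [he]; exact hu, rfl⟩
      rcases h1 with h1 | h1
      · exact h2.1 (h3.2.symm.trans h1)
      · exact h2.2 (h3.2.symm.trans h1)
  have hu : blk A N x k ∪ blk A N x k' = blk A N y k ∪ blk A N y k' := by
    ext u
    rw [Finset.mem_union, Finset.mem_union, sta_blk hk.2, sta_blk hk'.2, sta_blk hc,
      sta_blk hc', ← or_and_right, ← or_and_right, he]
    constructor
    · rintro ⟨h1, h2⟩
      exact ⟨(hin u (fun h3 => N.loopless.irrefl _ (h3 ▸ h2))).1 h1, h2⟩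
    · rintro ⟨h1, h2⟩
      exact ⟨(hin u (fun h3 => N.loopless.irrefl _ (h3 ▸ h2))).2 h1, h2⟩
  have hcard := congrArg Finset.card hu
  rw [Finset.card_union_of_disjoint (hd x hk.2 hk'.2), Finset.card_union_of_disjoint (hd y hc hc'),
    hk.1, hk'.1] at hcard
  have h3 := three_le h hy k
  have h4 := three_le h hy k'
  exact ⟨⟨by omega, hc⟩, ⟨by omega, hc'⟩⟩

end GYA
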