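import Pool.Agent.GYA.A_NOD
import Pool.Agent.GYA.A_STA

set_option autoImplicit false
set_option linter.unusedSectionVars false

namespace GYA

open Finset Function GY7

variable {W : Type} [Fintype W] [DecidableEq W] {A N : SimpleGraph W} {D t : ℕ} [NeZero t]

section CYC

variable {v : ℕ → W} {P : ℕ → Finset W} {c : ℕ → Fin t} {X : ℕ → W → Fin t} {n : ℕ}

/-- the elements of the `j`-th block are different from the vertices in hand, with the exception
of the next one -/
theorem cyc_notMem (hP : ∀ j < n, ∀ u ∈ P j, u ≠ v 0 ∧ X 0 u = c j)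
    (hD : ∀ j j', j < j' → j' < n → c j = c j' → Disjoint (P j) (P j'))
    (hv : ∀ j < n, v (j + 1) ∈ P j) {j : ℕ} (hj : j < n) {u : W} (hu : u ∈ P j) {l : ℕ}
    (hl : l ≤ n) (hlj : l ≠ j + 1) : u ≠ v l := by
  rcases l with _ | l
  · exact (hP j hj u hu).1
  · rintro rfl
    have hl' : l ≠ j := by omega
    have h1 := hv l (by omega)
    have h2 := (hP l (by omega) _ h1).2
    have h3 := (hP j hj _ hu).2
    have h4 : c l = c j := by rw [← h2, h3]
    rcases Nat.lt_or_gt_of_ne hl' with h | h
    · exact (Finset.disjoint_left.mp (hD l j h hj h4) h1) hu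
    · exact (Finset.disjoint_left.mp (hD j l h (by omega) h4.symm) hu) h1

/-- the vertices in hand are different -/
theorem cyc_dist (hP : ∀ j < n, ∀ u ∈ P j, u ≠ v 0 ∧ X 0 u = c j)
    (hD : ∀ j j', j < j' → j' < n → c j = c j' → Disjoint (P j) (P j'))
    (hv : ∀ j < n, v (j + 1) ∈ P j) {i j : ℕ} (hij : i < j) (hj : j ≤ n) : v j ≠ v i := by
  obtain ⟨j, rfl⟩ : ∃ j', j = j' + 1 := ⟨j - 1, by omega⟩
  exact cyc_notMem hP hD hv (by omega) (hv j (by omega)) (by omega) (by omega)

/-- the placements along the walk -/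
theorem cyc_pl (hP : ∀ j < n, ∀ u ∈ P j, u ≠ v 0 ∧ X 0 u = c j)
    (hD : ∀ j j', j < j' → j' < n → c j = c j' → Disjoint (P j) (P j'))
    (hv : ∀ j < n, v (j + 1) ∈ P j)
    (hX : ∀ i < n, X (i + 1) = update (update (X i) (v i) (c i)) (v (i + 1)) 0) {j : ℕ}
    (hj : j ≤ n) : (∀ u, (∀ l ≤ j, u ≠ v l) → X j u = X 0 u) ∧ ∀ l < j, X j (v l) = c l := by
  induction j with
  | zero => exact ⟨fun u _ => rfl, fun l hl => absurd hl (by omega)⟩
  | succ j ih =>
    obtain ⟨h1, h2⟩ := ih (by omega)
    refine ⟨?_, ?_⟩
    · intro u hu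
      rw [hX j (by omega), update_of_ne (hu (j + 1) le_rfl), update_of_ne (hu j (by omega))]
      exact h1 u (fun l hl => hu l (by omega))
    · intro l hl
      rw [hX j (by omega), update_of_ne (cyc_dist hP hD hv hl (by omega)).symm]
      rcases Nat.lt_or_ge l j with h | h
      · rw [update_of_ne (cyc_dist hP hD hv h (by omega)).symm]
        exact h2 l h
      · obtain rfl : l = j := by omega
        rw [update_self]

/-- the triangle which replaces the `j`-th block stays where it is -/
theorem cyc_tri (hP : ∀ j < n, ∀ u ∈ P j, u ≠ v 0 ∧ X 0 u = c j)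
    (hD : ∀ j j', j < j' → j' < n → c j = c j' → Disjoint (P j) (P j'))
    (hv : ∀ j < n, v (j + 1) ∈ P j)
    (hX : ∀ i < n, X (i + 1) = update (update (X i) (v i) (c i)) (v (i + 1)) 0) {j i : ℕ}
    (hji : j < i) (hi : i ≤ n) {u : W} (hu : u ∈ insert (v j) ((P j).erase (v (j + 1)))) :
    u ≠ v i ∧ X i u = c j := by
  obtain ⟨h1, h2⟩ := cyc_pl hP hD hv hX hi
  rcases Finset.mem_insert.mp hu with rfl | hu
  · exact ⟨(cyc_dist hP hD hv hji hi).symm, h2 j hji⟩
  · obtain ⟨hu1, hu2⟩ := Finset.mem_erase.mp hu
    have hne : ∀ l ≤ n, u ≠ v l := by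
      intro l hl
      by_cases hlj : l = j + 1
      · rw [hlj]; exact hu1
      · exact cyc_notMem hP hD hv (by omega) hu2 hl hlj
    exact ⟨hne i hi, (h1 u (fun l hl => hne l (by omega))).trans (hP j (by omega) u hu2).2⟩

end CYC

/-- **Lemma 1**: a closed walk of states for which both columns are good does not start at a
state which is not joined. -/
theorem cyc (h : Dat A N D t) {k k' : Fin t} (hf : Far k k') (m : ℕ) (hm : 1 ≤ m)
    (x : ℕ → St W t) (hper : x (2 * m) = x 0)
    (hst : ∀ i, i ≤ 2 * m → IsSt A N (x i) ∧ Good A N (x i) k ∧ Good A N (x i) k')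
    (h0 : ∀ i, i < m → nd A N (x (2 * i)) k = nd A N (x (2 * i + 1)) k ∧
      x (2 * i) ≠ x (2 * i + 1))
    (h1 : ∀ i, i < m → nd A N (x (2 * i + 1)) k' = nd A N (x (2 * i + 2)) k' ∧
      x (2 * i + 1) ≠ x (2 * i + 2)) : ¬ NJ A N (x 0) k k' := by
  classical
  rintro ⟨-, -, hns, hns'⟩
  have hkk : k ≠ k' := hf.ne
  -- the columns
  obtain ⟨c, hc⟩ : ∃ c : ℕ → Fin t, c = fun i => if i % 2 = 0 then k else k' := ⟨_, rfl⟩
  have hc0 : ∀ i, i % 2 = 0 → c i = k := by intro i hi; rw [hc]; simp [hi]
  have hc1 : ∀ i, i % 2 = 1 → c i = k' := by intro i hi; rw [hc]; simp [hi]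
  have hcc : ∀ i j, c i = c j → i % 2 = j % 2 := by
    intro i j hij
    rcases Nat.mod_two_eq_zero_or_one i with hi | hi <;>
      rcases Nat.mod_two_eq_zero_or_one j with hj | hj
    · omega
    · rw [hc0 i hi, hc1 j hj] at hij; exact absurd hij hkk
    · rw [hc1 i hi, hc0 j hj] at hij; exact absurd hij hkk.symm
    · omega
  have hcc' : ∀ i j, i % 2 = j % 2 → c i = c j := by
    intro i j hij
    rcases Nat.mod_two_eq_zero_or_one i with hi | hi
    · rw [hc0 i hi, hc0 j (by omega)]
    · rw [hc1 i hi, hc1 j (by omega)]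
  have hgc : ∀ i j, i ≤ 2 * m → Good A N (x i) (c j) := by
    intro i j hi
    rcases Nat.mod_two_eq_zero_or_one j with hj | hj
    · rw [hc0 j hj]; exact (hst i hi).2.1
    · rw [hc1 j hj]; exact (hst i hi).2.2
  -- the walk consists of moves
  have hstep : ∀ i, i < 2 * m → (x (i + 1)).1 ∈ blk A N (x i) (c i) ∧
      x (i + 1) = mv (x i) (c i) (x (i + 1)).1 := by
    intro i hi
    refine nd_eq h (hst i (by omega)).1 (hst (i + 1) (by omega)).1 (hgc i i (by omega))
      (hgc (i + 1) i (by omega)) ?_ ?_
    · rcases Nat.mod_two_eq_zero_or_one i with hi' | hi'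
      · have := (h0 (i / 2) (by omega)).1
        rw [show 2 * (i / 2) = i by omega] at this
        rw [hc0 i hi']; exact this
      · have := (h1 (i / 2) (by omega)).1
        rw [show 2 * (i / 2) + 1 = i by omega, show 2 * (i / 2) + 2 = i + 1 by omega] at this
        rw [hc1 i hi']; exact this
    · rcases Nat.mod_two_eq_zero_or_one i with hi' | hi'
      · have := (h0 (i / 2) (by omega)).2
        rw [show 2 * (i / 2) = i by omega] at this
        exact this
      · have := (h1 (i / 2) (by omega)).2
        rw [show 2 * (i / 2) + 1 = i by omega, show 2 * (i / 2) + 2 = i + 1 by omega] at this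
        exact this
  obtain ⟨v, hv⟩ : ∃ v : ℕ → W, v = fun i => (x i).1 := ⟨_, rfl⟩
  obtain ⟨P, hPd⟩ : ∃ P : ℕ → Finset W, P = fun i => blk A N (x i) (c i) := ⟨_, rfl⟩
  obtain ⟨X, hXd⟩ : ∃ X : ℕ → W → Fin t, X = fun i => (x i).2 := ⟨_, rfl⟩
  have hv' : ∀ i, (x i).1 = v i := fun i => by rw [hv]
  have hP' : ∀ i, blk A N (x i) (c i) = P i := fun i => by rw [hPd]
  have hX' : ∀ i, (x i).2 = X i := fun i => by rw [hXd]
  have hvP : ∀ i, i < 2 * m → v (i + 1) ∈ P i := by
    intro i hi; rw [← hv', ← hP']; exact (hstep i hi).1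
  have hmv : ∀ i, i < 2 * m → x (i + 1) = mv (x i) (c i) (v (i + 1)) := by
    intro i hi; rw [← hv']; exact (hstep i hi).2
  have hXX : ∀ i, i < 2 * m → X (i + 1) = update (update (X i) (v i) (c i)) (v (i + 1)) 0 := by
    intro i hi
    rw [← hX' (i + 1), hmv i hi, ← hX' i, ← hv' i]
    rfl
  -- membership in the blocks
  have hmem : ∀ i j, i ≤ 2 * m → ∀ u, u ∈ blk A N (x i) (c j) ↔ X i u = c j ∧ N.Adj (v i) u := by
    intro i j hi u
    rw [mem_blk_good (hgc i j hi), hX', hv']
  -- same placement outside of the two columns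
  have hgm : ∀ i, i ≤ 2 * m → Gm k k' (x 0) (x i) := by
    intro i
    induction i with
    | zero => intro _; exact Gm.refl _
    | succ i ih =>
      intro hi
      have h2 := hstep i (by omega)
      rw [h2.2]
      refine (ih (by omega)).trans ?_
      rcases Nat.mod_two_eq_zero_or_one i with hi' | hi'
      · rw [hc0 i hi'] at h2 ⊢
        exact gm_mv (hst i (by omega)).2.1 h2.1
      · rw [hc1 i hi'] at h2 ⊢
        exact gm_mv' (hst i (by omega)).2.2 h2.1
  -- the triangles along the walk
  have hPcard : ∀ i, i ≤ 2 * m → (P i).card = 3 := by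
    intro i hi; rw [← hP']; exact (hgc i i hi).1
  have hvnP : ∀ i, v i ∉ P i := by
    intro i; rw [← hP', ← hv']; exact notMem_blk
  have htc : ∀ j, j < 2 * m → (insert (v j) ((P j).erase (v (j + 1)))).card = 3 := by
    intro j hj
    rw [Finset.card_insert_of_notMem, Finset.card_erase_of_mem (hvP j hj), hPcard j (by omega)]
    intro hh
    exact hvnP j (Finset.mem_of_mem_erase hh)
  have htN : ∀ j, j < 2 * m → ∀ a ∈ insert (v j) ((P j).erase (v (j + 1))),
      ∀ b ∈ insert (v j) ((P j).erase (v (j + 1))), a ≠ b → N.Adj a b := by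
    intro j hj a ha b hb hab
    have e : blk A N (x (j + 1)) (c j) = insert (v j) ((P j).erase (v (j + 1))) := by
      rw [hmv j hj, mv_blk h (hst j (by omega)).1 (hgc j j (by omega)) (by rw [hP']; exact hvP j hj),
        hP', hv']
    rw [← e] at ha hb
    exact blk_near h (hst (j + 1) (by omega)).1 (hgc (j + 1) j (by omega)) ha hb hab
  -- the block of the other column at `x 0`
  obtain ⟨Q, hQd⟩ : ∃ Q : Finset W, Q = blk A N (x 0) k' := ⟨_, rfl⟩
  have hQmem : ∀ u, u ∈ Q ↔ X 0 u = k' ∧ N.Adj (v 0) u := by
    intro u; rw [hQd, mem_blk_good (hst 0 (by omega)).2.2, hX', hv']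
  have hvQ : v 0 ∉ Q := by rw [hQd, ← hv']; exact notMem_blk
  -- the invariant
  have inv : ∀ n, n ≤ 2 * m → (∀ j < n, ∀ u ∈ P j, u ≠ v 0 ∧ X 0 u = c j) ∧
      (∀ j j', j < j' → j' < n → c j = c j' → Disjoint (P j) (P j')) ∧
      (∀ j < n, j % 2 = 1 → Disjoint (P j) Q) := by
    intro n
    induction n with
    | zero =>
      intro _
      exact ⟨fun j hj => absurd hj (by omega), fun j j' _ hj => absurd hj (by omega),
        fun j hj => absurd hj (by omega)⟩
    | succ n ih =>
      intro hn
      obtain ⟨iP, iD, iQ⟩ := ih (by omega)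
      have ivP : ∀ j < n, v (j + 1) ∈ P j := fun j hj => hvP j (by omega)
      have iX : ∀ i < n, X (i + 1) = update (update (X i) (v i) (c i)) (v (i + 1)) 0 :=
        fun i hi => hXX i (by omega)
      have hdist : ∀ i j, i < j → j ≤ n → v j ≠ v i := fun i j hij hj =>
        cyc_dist iP iD ivP hij hj
      have hpl := cyc_pl iP iD ivP iX (le_refl n)
      have htri : ∀ j < n, ∀ u ∈ insert (v j) ((P j).erase (v (j + 1))),
          u ≠ v n ∧ X n u = c j := fun j hj u hu => cyc_tri iP iD ivP iX hj (le_refl n) hu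
      have hPn : ∀ u, u ∈ P n ↔ X n u = c n ∧ N.Adj (v n) u := by
        intro u; rw [← hP', hmem n n (by omega)]
      -- a block of the same column which meets one of the triangles
      have hblk : ∀ j < n, c j = c n → ∀ u ∈ insert (v j) ((P j).erase (v (j + 1))), u ∈ P n →
          P n = insert (v j) ((P j).erase (v (j + 1))) := by
        intro j hj hcj u hu hun
        rw [← hP']
        refine blk_eq h (hst n (by omega)).1 (hgc n n (by omega)) (htc j (by omega)) ?_
          (htN j (by omega)) hu (by rw [hP']; exact hun)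
        intro a ha
        rw [hv', hX', ← hcj]
        exact htri j hj a ha
      -- case B
      have hB : ∀ l < n, v l ∉ P n := by
        intro l hl hln
        have e1 : X n (v l) = c n := ((hPn _).mp hln).1
        have e2 : c l = c n := by rw [← e1, hpl.2 l hl]
        have hpar := hcc _ _ e2
        have hadj : N.Adj (v n) (v l) := ((hPn _).mp hln).2
        obtain ⟨n', rfl⟩ : ∃ n', n = n' + 1 := ⟨n - 1, by omega⟩
        have hvn : v (n' + 1) ∈ P n' := ivP n' (by omega)
        have hcn : X 0 (v (n' + 1)) = c n' := (iP n' (by omega) _ hvn).2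
        have hXl : X l (v (n' + 1)) = c (l + 1) := by
          rw [(cyc_pl iP iD ivP iX (by omega : l ≤ n' + 1)).1 (v (n' + 1))
            (fun l' hl' => hdist l' (n' + 1) (by omega) le_rfl), hcn]
          exact hcc' _ _ (by omega)
        have hin : v (n' + 1) ∈ blk A N (x l) (c (l + 1)) := by
          rw [hmem l (l + 1) (by omega)]
          exact ⟨hXl, hadj.symm⟩
        rcases l with _ | l
        · rw [hc1 (0 + 1) (by omega), ← hQd] at hin
          exact Finset.disjoint_left.mp (iQ n' (by omega) (by omega)) hvn hin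
        · have ecc : c (l + 1 + 1) = c l := hcc' _ _ (by omega)
          rw [ecc, hmv l (by omega), mv_blk h (hst l (by omega)).1 (hgc l l (by omega))
            (by rw [hP']; exact hvP l (by omega)), hP', hv'] at hin
          rcases Finset.mem_insert.mp hin with hh | hh
          · exact hdist l (n' + 1) (by omega) le_rfl hh
          · exact Finset.disjoint_left.mp (iD l n' (by omega) (by omega) (hcc' _ _ (by omega)))
              (Finset.mem_of_mem_erase hh) hvn
      have hA : ∀ u ∈ P n, X 0 u = c n ∧ ∀ l ≤ n, u ≠ v l := by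
        intro u hu
        have hne : ∀ l ≤ n, u ≠ v l := by
          intro l hl hul
          rcases Nat.lt_or_ge l n with hl' | hl'
          · exact hB l hl' (hul ▸ hu)
          · obtain rfl : l = n := by omega
            exact hvnP l (hul ▸ hu)
        refine ⟨?_, hne⟩
        rw [← hpl.1 u hne]
        exact ((hPn u).mp hu).1
      have newP : ∀ j < n + 1, ∀ u ∈ P j, u ≠ v 0 ∧ X 0 u = c j := by
        intro j hj u hu
        rcases Nat.lt_or_ge j n with hj' | hj'
        · exact iP j hj' u hu
        · obtain rfl : j = n := by omega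
          exact ⟨(hA u hu).2 0 (by omega), (hA u hu).1⟩
      have newD : ∀ j j', j < j' → j' < n + 1 → c j = c j' → Disjoint (P j) (P j') := by
        intro j j' hjj hj' hcj
        rcases Nat.lt_or_ge j' n with hj'' | hj''
        · exact iD j j' hjj hj'' hcj
        · obtain rfl : j' = n := by omega
          rw [Finset.disjoint_left]
          intro u hu hu'
          have hue : u ∈ insert (v j) ((P j).erase (v (j + 1))) :=
            Finset.mem_insert_of_mem (Finset.mem_erase.mpr ⟨(hA u hu').2 (j + 1) (by omega), hu⟩)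
          have := hblk j hjj hcj u hue hu'
          exact hB j hjj (this ▸ Finset.mem_insert_self _ _)
      refine ⟨newP, newD, ?_⟩
      intro j hj hj1
      rcases Nat.lt_or_ge j n with hj' | hj'
      · exact iQ j hj' hj1
      obtain rfl : j = n := by omega
      rw [Finset.disjoint_left]
      intro u hu huQ
      -- the vertices of `Q` have not been moved
      have hQne : ∀ a ∈ Q, ∀ l ≤ j, a ≠ v l := by
        intro a ha l hl hal
        rcases l with _ | l
        · exact hvQ (hal ▸ ha)
        · have h2 := ivP l (by omega)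
          rw [← hal] at h2
          rcases Nat.mod_two_eq_zero_or_one l with hl2 | hl2
          · have h3 := (iP l (by omega) _ h2).2
            rw [((hQmem a).mp ha).1, hc0 l hl2] at h3
            exact hkk h3.symm
          · exact Finset.disjoint_left.mp (iQ l (by omega) hl2) h2 ha
      have hPQ : P j = Q := by
        rw [← hP']
        refine blk_eq h (hst j (by omega)).1 (hgc j j (by omega)) (by rw [hQd]; exact (hst 0 (by omega)).2.2.1)
          ?_ ?_ huQ (by rw [hP']; exact hu)
        · intro a ha
          rw [hv', hX']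
          refine ⟨hQne a ha j le_rfl, ?_⟩
          rw [hpl.1 a (hQne a ha), ((hQmem a).mp ha).1, hc1 j hj1]
        · intro a ha b hb hab
          rw [hQd] at ha hb
          exact blk_near h (hst 0 (by omega)).1 (hst 0 (by omega)).2.2 ha hb hab
      by_cases hj0 : j = 1
      · -- the first step
        subst hj0
        refine hns ⟨v 1, ?_, ?_, ?_⟩
        · have := hvP 0 (by omega)
          rw [← hP', hc0 0 rfl] at this
          exact this
        · have := hmv 0 (by omega)
          rw [hc0 0 rfl, Nat.zero_add] at this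
          rw [← this]
          exact (hst 1 (by omega)).2.2
        · intro a ha
          rw [← hQd, ← hPQ] at ha
          exact ((hPn a).mp ha).2
      · -- the vertex `w` which is taken out of `Q`
        have hwQ : v (j + 1) ∈ Q := by rw [← hPQ]; exact hvP j (by omega)
        have newv : ∀ i < j + 1, v (i + 1) ∈ P i := fun i hi => hvP i (by omega)
        have newX : ∀ i < j + 1, X (i + 1) = update (update (X i) (v i) (c i)) (v (i + 1)) 0 :=
          fun i hi => hXX i (by omega)
        have htri0 : ∀ u ∈ insert (v 0) ((P 0).erase (v (0 + 1))), u ≠ v (j + 1) ∧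
            X (j + 1) u = c 0 := fun u hu =>
          cyc_tri newP newD newv newX (by omega : 0 < j + 1) (le_refl _) hu
        have hgk := (hst (j + 1) (by omega)).2.1
        have e0 : c 0 = k := hc0 0 rfl
        have hb0 : blk A N (x (j + 1)) k = insert (v 0) ((P 0).erase (v (0 + 1))) := by
          refine blk_eq h (hst (j + 1) (by omega)).1 hgk (htc 0 (by omega)) ?_ (htN 0 (by omega))
            (Finset.mem_insert_self _ _) ?_
          · intro a ha
            rw [hv', hX', ← e0]
            exact htri0 a ha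
          · rw [mem_blk_good hgk, hX', hv', ← e0]
            exact ⟨(htri0 (v 0) (Finset.mem_insert_self _ _)).2, ((hQmem _).mp hwQ).2.symm⟩
        -- a vertex of `P 0` which is seen
        obtain ⟨u1, hu1⟩ : ((P 0).erase (v (0 + 1))).Nonempty := by
          rw [← Finset.card_pos, Finset.card_erase_of_mem (hvP 0 (by omega)),
            hPcard 0 (by omega)]
          norm_num
        have hu1P := Finset.mem_of_mem_erase hu1
        have hadj : N.Adj (v (j + 1)) u1 := by
          have : u1 ∈ blk A N (x (j + 1)) k := by rw [hb0]; exact Finset.mem_insert_of_mem hu1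
          rw [mem_blk_good hgk, hv'] at this
          exact this.2
        have hwQ' : v (j + 1) ∈ blk A N (x 0) k' := by rw [← hQd]; exact hwQ
        have hy : IsSt A N (mv (x 0) k' (v (j + 1))) :=
          mv_st h (hst 0 (by omega)).1 (hst 0 (by omega)).2.2.1 hwQ'
        have hyG := sta h hf (hst (j + 1) (by omega)).1 hy
          (((hgm (j + 1) (by omega)).symm).trans (gm_mv' (hst 0 (by omega)).2.2 hwQ'))
          (by rw [hv']; rfl) hgk (hst (j + 1) (by omega)).2.2
        -- the block of `k` is still `P 0`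
        have hP0 : blk A N (x 0) k = P 0 := by rw [← hP', e0]
        have hpl0 : ∀ a ∈ P 0, a ≠ v (j + 1) ∧ (mv (x 0) k' (v (j + 1))).2 a = k := by
          intro a ha
          have h2 := newP 0 (by omega) a ha
          have h3 : a ≠ v (j + 1) := by
            rintro rfl
            rw [((hQmem _).mp hwQ).1, e0] at h2
            exact hkk h2.2.symm
          refine ⟨h3, ?_⟩
          show update (update (x 0).2 (x 0).1 k') (v (j + 1)) 0 a = k
          rw [update_of_ne h3, hv', update_of_ne h2.1, hX', h2.2, e0]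
        have hbP : blk A N (mv (x 0) k' (v (j + 1))) k = P 0 := by
          refine blk_eq h hy hyG.1 (hPcard 0 (by omega)) hpl0 ?_ hu1P ?_
          · intro a ha b hb hab
            rw [← hP0] at ha hb
            exact blk_near h (hst 0 (by omega)).1 (hst 0 (by omega)).2.1 ha hb hab
          · rw [mem_blk_good hyG.1]
            exact ⟨(hpl0 u1 hu1P).2, hadj⟩
        refine hns' ⟨v (j + 1), hwQ', hyG.1, ?_⟩
        intro a ha
        rw [hP0, ← hbP, mem_blk_good hyG.1] at ha
        exact ha.2
  -- the contradiction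
  obtain ⟨iP, -, -⟩ := inv (2 * m) le_rfl
  have h2 := hvP (2 * m - 1) (by omega)
  have h3 := (iP (2 * m - 1) (by omega) _ h2).1
  rw [show 2 * m - 1 + 1 = 2 * m by omega, hv] at h3
  exact h3 (by simp only [hper])

end GYA
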