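import Pool.Agent.GYA.A_BAS

set_option autoImplicit false
set_option linter.unusedSectionVars false

namespace GYA

open Finset Function GY7

variable {W : Type} [Fintype W] [DecidableEq W] {A N : SimpleGraph W} {D t : ℕ} [NeZero t]

/-- Membership in a block, written out. -/
theorem drp_mem {x : St W t} {k : Fin t} {u : W} :
    u ∈ blk A N x k ↔ (k = x.2 u ∧ N.Adj x.1 u) ∨ (Nxt k (x.2 u) ∧ A.Adj x.1 u) := mem_blk

theorem drp_far {k k' : Fin t} (h : Far k k') : ¬ Nxt k k' := by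
  rintro (h1 | h1) <;> rcases h with h2 | h2 <;> omega

theorem drp_nxt {k k' : Fin t} (h : Nxt k k') : Nxt k' k := Or.symm h

/-- Placement after a move: the other vertices. -/
theorem drp_mv_of_ne {x : St W t} {k : Fin t} {w u : W} (h1 : u ≠ x.1) (h2 : u ≠ w) :
    (mv x k w).2 u = x.2 u := by
  simp only [mv]
  rw [update_of_ne h2, update_of_ne h1]

/-- Placement after a move: the vertex which was in hand. -/
theorem drp_mv_self {x : St W t} {k : Fin t} {w : W} (h : x.1 ≠ w) :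
    (mv x k w).2 x.1 = k := by
  simp only [mv]
  rw [update_of_ne h, update_self]

/-- **The energy drop.** -/
theorem drp (h : Dat A N D t) {x : St W t} (hx : IsSt A N x) {a b c : Fin t} (hab : a ≠ b)
    (hac : Far a c) (hbc : Far b c) (ha : Good A N x a) (hb : Good A N x b) (hc : Good A N x c)
    (hvc : ∀ u, A.Adj x.1 u → x.2 u ≠ c) {y₁ y₂ w : W} (hy₁ : y₁ ∈ blk A N x a)
    (hy₂ : y₂ ∈ blk A N x b) (hw : w ∈ blk A N x c)
    (h1 : Good A N (mv x a y₁) c) (h1' : blk A N (mv x a y₁) c = blk A N x c)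
    (h2 : Good A N (mv x b y₂) c) (h2' : blk A N (mv x b y₂) c = blk A N x c)
    (h3 : Good A N (mv x c w) a) (h3' : blk A N (mv x c w) a = blk A N x a) : N.Adj y₁ y₂ := by
  by_contra hN
  -- the columns of the vertices
  have hy₁c : x.2 y₁ = a := ((mem_blk_good ha).1 hy₁).1
  have hy₂c : x.2 y₂ = b := ((mem_blk_good hb).1 hy₂).1
  have hwc : x.2 w = c := ((mem_blk_good hc).1 hw).1
  have hvy₁ : x.1 ≠ y₁ := fun e => notMem_blk (A := A) (N := N) (x := x) (k := a) (e ▸ hy₁)
  have hvy₂ : x.1 ≠ y₂ := fun e => notMem_blk (A := A) (N := N) (x := x) (k := b) (e ▸ hy₂)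
  have hvw : x.1 ≠ w := fun e => notMem_blk (A := A) (N := N) (x := x) (k := c) (e ▸ hw)
  have h12 : y₁ ≠ y₂ := fun e => hab (by rw [← hy₁c, ← hy₂c, e])
  have h1w : y₁ ≠ w := fun e => hac.ne (by rw [← hy₁c, ← hwc, e])
  have h2w : y₂ ≠ w := fun e => hbc.ne (by rw [← hy₂c, ← hwc, e])
  have hvw' : ¬ A.Adj w x.1 := fun e => hvc w e.symm hwc
  -- the first two moves
  have hx1 : IsSt A N (mv x b y₂) := mv_st h hx hb.1 hy₂
  have hx2 : IsSt A N (mv (mv x b y₂) c w) := mv_st h hx1 h2.1 (by rw [h2']; exact hw)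
  set x2 := mv (mv x b y₂) c w with hx2def
  have e21 : x2.1 = w := rfl
  have p2v : x2.2 x.1 = b := by
    rw [hx2def, drp_mv_of_ne (x := mv x b y₂) hvy₂ hvw, drp_mv_self hvy₂]
  have p2y : x2.2 y₂ = c := drp_mv_self (x := mv x b y₂) h2w
  have p2o : ∀ u, u ≠ x.1 → u ≠ y₂ → u ≠ w → x2.2 u = x.2 u := by
    intro u g1 g2 g3
    rw [hx2def, drp_mv_of_ne (x := mv x b y₂) g2 g3, drp_mv_of_ne g1 g2]
  have q3v : (mv x c w).2 x.1 = c := drp_mv_self hvw
  have q3o : ∀ u, u ≠ x.1 → u ≠ w → (mv x c w).2 u = x.2 u := fun u g1 g2 =>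
    drp_mv_of_ne g1 g2
  -- the block of column `a` of `x2`
  have hblk2 : blk A N x2 a = blk A N x a := by
    rw [← h3']
    ext u
    rw [drp_mem, drp_mem, e21, show (mv x c w).1 = w from rfl]
    by_cases uv : u = x.1
    · rw [uv, p2v, q3v]
      constructor
      · rintro (⟨g, -⟩ | ⟨-, g⟩)
        · exact absurd g hab
        · exact absurd g hvw'
      · rintro (⟨g, -⟩ | ⟨g, -⟩)
        · exact absurd g hac.ne
        · exact absurd g (drp_far hac)
    by_cases uy : u = y₂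
    · rw [uy, p2y, q3o y₂ hvy₂.symm h2w, hy₂c]
      constructor
      · rintro (⟨g, -⟩ | ⟨g, -⟩)
        · exact absurd g hac.ne
        · exact absurd g (drp_far hac)
      · rintro (⟨g, -⟩ | ⟨g, g'⟩)
        · exact absurd g hab
        · refine absurd (drp_nxt g) ?_
          have := h3.2 y₂ g'
          rwa [q3o y₂ hvy₂.symm h2w, hy₂c] at this
    by_cases uw : u = w
    · rw [uw]
      constructor
      · rintro (⟨-, g⟩ | ⟨-, g⟩)
        · exact absurd g (N.loopless.irrefl w)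
        · exact absurd g (A.loopless.irrefl w)
      · rintro (⟨-, g⟩ | ⟨-, g⟩)
        · exact absurd g (N.loopless.irrefl w)
        · exact absurd g (A.loopless.irrefl w)
    rw [p2o u uv uy uw, q3o u uv uw]
  have hx3 : IsSt A N (mv x2 a y₁) := mv_st h hx2 (by rw [hblk2]; exact ha.1)
    (by rw [hblk2]; exact hy₁)
  -- the vertex `y₁` has at most two conflicts in column `c`
  have p3v : (mv x2 a y₁).2 x.1 = b := by
    rw [drp_mv_of_ne (x := x2) hvw hvy₁, p2v]
  have p3y : (mv x2 a y₁).2 y₂ = c := by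
    rw [drp_mv_of_ne (x := x2) h2w h12.symm, p2y]
  have p3w : (mv x2 a y₁).2 w = a := drp_mv_self (x := x2) h1w.symm
  have p3o : ∀ u, u ≠ x.1 → u ≠ y₂ → u ≠ w → u ≠ y₁ → (mv x2 a y₁).2 u = x.2 u := by
    intro u g1 g2 g3 g4
    rw [drp_mv_of_ne (x := x2) g3 g4, p2o u g1 g2 g3]
  have hsub : blk A N (mv x2 a y₁) c ⊆ (blk A N x c).erase w := by
    intro u hu
    rw [drp_mem, show (mv x2 a y₁).1 = y₁ from rfl] at hu
    have uv : u ≠ x.1 := by
      rintro rfl
      rw [p3v] at hu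
      rcases hu with ⟨g, -⟩ | ⟨g, -⟩
      · exact hbc.ne g.symm
      · exact drp_far hbc (drp_nxt g)
    have uy : u ≠ y₂ := by
      rintro rfl
      rw [p3y] at hu
      rcases hu with ⟨-, g⟩ | ⟨g, -⟩
      · exact hN g
      · rcases g with g | g <;> omega
    have uw : u ≠ w := by
      rintro rfl
      rw [p3w] at hu
      rcases hu with ⟨g, -⟩ | ⟨g, -⟩
      · exact hac.ne g.symm
      · exact drp_far hac (drp_nxt g)
    have uy₁ : u ≠ y₁ := by
      rintro rfl
      rcases hu with ⟨-, g⟩ | ⟨-, g⟩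
      · exact N.loopless.irrefl _ g
      · exact A.loopless.irrefl _ g
    rw [p3o u uv uy uw uy₁] at hu
    refine mem_erase.2 ⟨uw, ?_⟩
    rw [← h1', drp_mem, show (mv x a y₁).1 = y₁ from rfl, drp_mv_of_ne uv uy₁]
    exact hu
  have hcard := card_le_card hsub
  rw [card_erase_of_mem hw, hc.1] at hcard
  have := three_le h hx3 c
  omega

end GYA
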