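import Mathlib

set_option autoImplicit false

/-!
# An abstract forest has fewer edges than vertices
-/

namespace GYA

open Finset

variable {α β γ : Type} [DecidableEq α] [DecidableEq β] [DecidableEq γ]

/-- If every edge has a neighbour at both ends then there is a closed walk. -/
theorem A_FOR_walk (E : Finset α) (p : α → β) (q : α → γ) (hE : E.Nonempty)
    (hp : ∀ e ∈ E, ∃ f ∈ E, p e = p f ∧ e ≠ f) (hq : ∀ e ∈ E, ∃ f ∈ E, q e = q f ∧ e ≠ f) :
    ∃ (m : ℕ) (x : ℕ → α), 1 ≤ m ∧ x (2 * m) = x 0 ∧ (∀ i, x i ∈ E) ∧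
      (∀ i, p (x (2 * i)) = p (x (2 * i + 1)) ∧ x (2 * i) ≠ x (2 * i + 1)) ∧
      (∀ i, q (x (2 * i + 1)) = q (x (2 * i + 2)) ∧ x (2 * i + 1) ≠ x (2 * i + 2)) := by
  choose! sp hsp1 hsp2 using hp
  choose! sq hsq1 hsq2 using hq
  obtain ⟨e0, he0⟩ := hE
  let w : ℕ → α := fun n => Nat.rec e0 (fun n a => if Even n then sp a else sq a) n
  have ws : ∀ n, w (n + 1) = if Even n then sp (w n) else sq (w n) := fun n => rfl
  have hw : ∀ n, w n ∈ E := by
    intro n
    induction n with
    | zero => exact he0
    | succ n ih =>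
      rw [ws]
      split_ifs
      · exact hsp1 _ ih
      · exact hsq1 _ ih
  have we : ∀ i, w (2 * i + 1) = sp (w (2 * i)) := fun i => by
    rw [ws, if_pos (even_two_mul i)]
  have wo : ∀ i, w (2 * i + 2) = sq (w (2 * i + 1)) := fun i => by
    rw [ws, if_neg (Nat.not_even_iff_odd.2 (odd_two_mul_add_one i))]
  have key : ∃ i j, i < j ∧ w (2 * i) = w (2 * j) := by
    obtain ⟨i, _, j, _, hij, h⟩ := Finset.exists_ne_map_eq_of_card_lt_of_maps_to
      (s := Finset.range (E.card + 1)) (t := E) (f := fun i => w (2 * i)) (by simp)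
      (fun i _ => hw (2 * i))
    rcases lt_or_gt_of_ne hij with h1 | h1
    · exact ⟨i, j, h1, h⟩
    · exact ⟨j, i, h1, h.symm⟩
  obtain ⟨i, j, hij, h⟩ := key
  refine ⟨j - i, fun t => w (2 * i + t), by omega, ?_, fun t => hw _, fun t => ?_, fun t => ?_⟩
  · show w (2 * i + 2 * (j - i)) = w (2 * i + 0)
    rw [show 2 * i + 2 * (j - i) = 2 * j by omega, add_zero, h]
  · show p (w (2 * i + 2 * t)) = p (w (2 * i + (2 * t + 1))) ∧
      w (2 * i + 2 * t) ≠ w (2 * i + (2 * t + 1))
    rw [show 2 * i + 2 * t = 2 * (i + t) by omega,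
      show 2 * i + (2 * t + 1) = 2 * (i + t) + 1 by omega, we]
    exact hsp2 _ (hw (2 * (i + t)))
  · show q (w (2 * i + (2 * t + 1))) = q (w (2 * i + (2 * t + 2))) ∧
      w (2 * i + (2 * t + 1)) ≠ w (2 * i + (2 * t + 2))
    rw [show 2 * i + (2 * t + 1) = 2 * (i + t) + 1 by omega,
      show 2 * i + (2 * t + 2) = 2 * (i + t) + 2 by omega, wo]
    exact hsq2 _ (hw (2 * (i + t) + 1))

/-- `E` is the set of edges of a bipartite multigraph, `p e` and `q e` are the ends of `e`. If there
is no closed walk which alternates then there are fewer edges than vertices. -/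
theorem forest (E : Finset α) (p : α → β) (q : α → γ) (hE : E.Nonempty)
    (hac : ∀ (m : ℕ) (x : ℕ → α), 1 ≤ m → x (2 * m) = x 0 → (∀ i, i ≤ 2 * m → x i ∈ E) →
      (∀ i, i < m → p (x (2 * i)) = p (x (2 * i + 1)) ∧ x (2 * i) ≠ x (2 * i + 1)) →
      (∀ i, i < m → q (x (2 * i + 1)) = q (x (2 * i + 2)) ∧ x (2 * i + 1) ≠ x (2 * i + 2)) →
      False) :
    E.card + 1 ≤ (E.image p).card + (E.image q).card := by
  induction hn : E.card using Nat.strong_induction_on generalizing E with
  | _ n ih =>
  have main : ∀ e ∈ E, ((∀ f ∈ E, p e = p f → e = f) ∨ (∀ f ∈ E, q e = q f → e = f)) →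
      E.card + 1 ≤ (E.image p).card + (E.image q).card := by
    intro e he hcase
    have hc : (E.erase e).card + 1 = E.card := Finset.card_erase_add_one he
    rcases (E.erase e).eq_empty_or_nonempty with h0 | h0
    · rw [h0, Finset.card_empty] at hc
      have h1 : 1 ≤ (E.image p).card := Finset.card_pos.2 (hE.image p)
      have h2 : 1 ≤ (E.image q).card := Finset.card_pos.2 (hE.image q)
      omega
    · have h1 := ih (E.erase e).card (by omega) (E.erase e) h0
        (fun m x hm hx hxE h2 h3 => hac m x hm hx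
          (fun i hi => Finset.mem_of_mem_erase (hxE i hi)) h2 h3) rfl
      have h2 : ((E.erase e).image p).card ≤ (E.image p).card :=
        Finset.card_le_card (Finset.image_subset_image (Finset.erase_subset e E))
      have h3 : ((E.erase e).image q).card ≤ (E.image q).card :=
        Finset.card_le_card (Finset.image_subset_image (Finset.erase_subset e E))
      rcases hcase with h4 | h4
      · have h5 : ((E.erase e).image p).card < (E.image p).card := by
          refine Finset.card_lt_card ?_
          refine (Finset.ssubset_iff_of_subset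
            (Finset.image_subset_image (Finset.erase_subset e E))).2
            ⟨p e, Finset.mem_image_of_mem p he, fun h => ?_⟩
          obtain ⟨f, hf, hfe⟩ := Finset.mem_image.1 h
          exact (Finset.ne_of_mem_erase hf) (h4 f (Finset.mem_of_mem_erase hf) hfe.symm).symm
        omega
      · have h5 : ((E.erase e).image q).card < (E.image q).card := by
          refine Finset.card_lt_card ?_
          refine (Finset.ssubset_iff_of_subset
            (Finset.image_subset_image (Finset.erase_subset e E))).2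
            ⟨q e, Finset.mem_image_of_mem q he, fun h => ?_⟩
          obtain ⟨f, hf, hfe⟩ := Finset.mem_image.1 h
          exact (Finset.ne_of_mem_erase hf) (h4 f (Finset.mem_of_mem_erase hf) hfe.symm).symm
        omega
  rw [← hn]
  by_cases h : ∃ e ∈ E, ((∀ f ∈ E, p e = p f → e = f) ∨ (∀ f ∈ E, q e = q f → e = f))
  · obtain ⟨e, he, hcase⟩ := h
    exact main e he hcase
  · exfalso
    push Not at h
    obtain ⟨m, x, h1, h2, h3, h4, h5⟩ := A_FOR_walk E p q hE (fun e he => (h e he).1)
      (fun e he => (h e he).2)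
    exact hac m x h1 h2 (fun i _ => h3 i) (fun i _ => h4 i) (fun i _ => h5 i)

end GYA
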