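import Pool.Agent.GYA.A_NOD
import Pool.Agent.GYA.A_STA

set_option autoImplicit false
set_option linter.unusedSectionVars false

namespace GYA

open Finset Function GY7

variable {W : Type} [Fintype W] [DecidableEq W] {A N : SimpleGraph W} {D t : ℕ} [NeZero t]

/-- The vertices of the other good block are untouched by a move. -/
theorem JOI_val {k k' : Fin t} (hne : k ≠ k') {x y : St W t} (hyk' : Good A N y k')
    (e : y = mv x k y.1) {a : W} (ha : a ∈ blk A N y k') : a ≠ x.1 ∧ x.2 a = k' := by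
  have h1 := (mem_blk_good hyk').mp ha
  have h2 : y.2 = update (update x.2 x.1 k) y.1 0 := congrArg Prod.snd e
  have h3 : a ≠ y.1 := by
    rintro rfl
    exact N.loopless.irrefl _ h1.2
  have h4 : y.2 a = update x.2 x.1 k a := by
    rw [h2, update_of_ne h3]
  have h5 : a ≠ x.1 := by
    rintro rfl
    rw [update_self] at h4
    exact hne (h4.symm.trans h1.1)
  refine ⟨h5, ?_⟩
  rw [update_of_ne h5] at h4
  exact h4.symm.trans h1.1

/-- The vertices of an untouched good block keep their column. -/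
theorem JOI_val' {k k' : Fin t} (hne : k ≠ k') {y z : St W t} (hyk : Good A N y k)
    (hp : y.2 z.1 = k') (e : z = mv y k' z.1) {a : W} (ha : a ∈ blk A N y k) :
    a ≠ z.1 ∧ z.2 a = k := by
  have h1 := (mem_blk_good hyk).mp ha
  have h2 : z.2 = update (update y.2 y.1 k') z.1 0 := congrArg Prod.snd e
  have h3 : a ≠ y.1 := by
    rintro rfl
    exact N.loopless.irrefl _ h1.2
  have h4 : a ≠ z.1 := by
    rintro rfl
    exact hne (h1.1.symm.trans hp)
  refine ⟨h4, ?_⟩
  rw [h2, update_of_ne h4, update_of_ne h3]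
  exact h1.1

/-- **Lemma 2**: `y` is joined and has the `k`-node of a state `x` which is not joined; then `k` is
not good for the other states `z` of the `k'`-node of `y`. -/
theorem joi (h : Dat A N D t) {k k' : Fin t} (hf : Far k k') {x y z : St W t} (hx : IsSt A N x)
    (hy : IsSt A N y) (hz : IsSt A N z) (hNJ : NJ A N x k k') (hyk : Good A N y k)
    (hyk' : Good A N y k') (hy' : ¬ NJ A N y k k') (e : nd A N x k = nd A N y k)
    (hzk' : Good A N z k') (ez : nd A N y k' = nd A N z k') (hzy : z ≠ y) :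
    ¬ Good A N z k := by
  intro hzk
  have hne : k ≠ k' := hf.ne
  have hxy : x ≠ y := by
    rintro rfl
    exact hy' hNJ
  obtain ⟨hy1, hy2⟩ := nd_eq h hx hy hNJ.1 hyk e hxy
  obtain ⟨hz1, hz2⟩ := nd_eq h hy hz hyk' hzk' ez hzy.symm
  -- the blocks `blk x k'` and `blk y k'` are disjoint
  have claimA : ∀ w ∈ blk A N y k', w ∉ blk A N x k' := by
    intro w hw hwx
    have h1 : blk A N x k' = blk A N y k' :=
      blk_eq h hx hNJ.2.1 hyk'.1 (fun a ha => JOI_val hne hyk' hy2 ha)
        (fun a ha b hb hab => blk_near h hy hyk' ha hb hab) hw hwx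
    apply hNJ.2.2.1
    refine ⟨y.1, hy1, ?_, fun u hu => ?_⟩
    · rw [← hy2]
      exact hyk'
    · rw [h1] at hu
      exact ((mem_blk_good hyk').mp hu).2
  have claimB : ∀ w ∈ blk A N y k', ¬ N.Adj x.1 w := by
    intro w hw hadj
    exact claimA w hw ((mem_blk_good hNJ.2.1).mpr ⟨(JOI_val hne hyk' hy2 hw).2, hadj⟩)
  -- the `k`-block of `y`
  have hT : blk A N y k = insert x.1 ((blk A N x k).erase y.1) := by
    have h1 := mv_blk h hx hNJ.1 hy1
    rw [← hy2] at h1
    exact h1
  have hxT : x.1 ∈ blk A N y k := by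
    rw [hT]
    exact mem_insert_self _ _
  have hp : y.2 z.1 = k' := ((mem_blk_good hyk').mp hz1).1
  by_cases hs : Sees A N y k k'
  · obtain ⟨w, hw, -, hw2⟩ := hs
    have hv := JOI_val' hne hyk hp hz2 hw
    have hwz : w ∈ blk A N z k := (mem_blk_good hzk).mpr ⟨hv.2, (hw2 z.1 hz1).symm⟩
    have h1 : blk A N z k = blk A N y k :=
      blk_eq h hz hzk hyk.1 (fun a ha => JOI_val' hne hyk hp hz2 ha)
        (fun a ha b hb hab => blk_near h hy hyk ha hb hab) hw hwz
    rw [← h1] at hxT
    exact claimB z.1 hz1 ((mem_blk_good hzk).mp hxT).2.symm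
  · by_cases hs' : Sees A N y k' k
    · obtain ⟨w, hw, -, hw2⟩ := hs'
      exact claimB w hw (hw2 x.1 hxT).symm
    · exact hy' ⟨hyk, hyk', hs, hs'⟩

end GYA
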