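import Pool.Agent.GYA.A_CYC
import Pool.Agent.GYA.A_JOI
import Pool.Agent.GYA.A_FOR
import Pool.Agent.GYA.A_CNT

set_option autoImplicit false
set_option linter.unusedSectionVars false

namespace GYA

open Finset Function GY7

variable {W : Type} [Fintype W] [DecidableEq W] {A N : SimpleGraph W} {D t : ℕ} [NeZero t]

open Classical in
/-- **Lemma 3.** -/
theorem lm3 (h : Dat A N D t) {k k' : Fin t} (hf : Far k k') :
    2 * (univ.filter (fun x : St W t => IsSt A N x ∧ NJ A N x k k')).card ≤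
    (univ.filter (fun x : St W t => IsSt A N x ∧ ((Good A N x k ∧ ¬ Good A N x k') ∨
      (¬ Good A N x k ∧ Good A N x k')))).card := by
  obtain ⟨S, hS⟩ : ∃ S : Finset (St W t),
      S = univ.filter (fun x : St W t => IsSt A N x ∧ Good A N x k) := ⟨_, rfl⟩
  obtain ⟨S', hS'⟩ : ∃ S' : Finset (St W t),
      S' = univ.filter (fun x : St W t => IsSt A N x ∧ Good A N x k') := ⟨_, rfl⟩
  obtain ⟨J, hJ⟩ : ∃ J : Finset (St W t),
      J = univ.filter (fun x : St W t => IsSt A N x ∧ NJ A N x k k') := ⟨_, rfl⟩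
  have mS : ∀ x, x ∈ S ↔ IsSt A N x ∧ Good A N x k := fun x => by rw [hS]; simp
  have mS' : ∀ x, x ∈ S' ↔ IsSt A N x ∧ Good A N x k' := fun x => by rw [hS']; simp
  have mJ : ∀ x, x ∈ J ↔ IsSt A N x ∧ NJ A N x k k' := fun x => by rw [hJ]; simp
  have key := cnt S S' J (fun x => nd A N x k) (fun x => nd A N x k') ?_ ?_ ?_ ?_ ?_ ?_
  · rw [← hJ]
    refine key.trans (card_le_card ?_)
    intro x hx
    rw [mem_union, mem_sdiff, mem_sdiff, mS, mS'] at hx
    rw [mem_filter]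
    refine ⟨mem_univ _, ?_⟩
    tauto
  · intro x hx
    rw [mS] at hx
    rw [← nd_card h hx.1 hx.2, hS, filter_filter]
    congr 1
    ext y
    simp only [mem_filter, and_assoc]
  · intro x hx
    rw [mS'] at hx
    rw [← nd_card h hx.1 hx.2, hS', filter_filter]
    congr 1
    ext y
    simp only [mem_filter, and_assoc]
  · intro x hx
    rw [mJ] at hx
    rw [mem_inter, mS, mS']
    exact ⟨⟨hx.1, hx.2.1⟩, ⟨hx.1, hx.2.2.1⟩⟩
  · by_cases hne : J.Nonempty
    · have h1 := forest J (fun x => nd A N x k) (fun x => nd A N x k') hne ?_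
      · omega
      · intro m x hm hper hst h0 h1
        refine cyc h hf m hm x hper (fun i hi => ?_) h0 h1 ((mJ _).1 (hst 0 (Nat.zero_le _))).2
        have h2 := (mJ _).1 (hst i hi)
        exact ⟨h2.1, h2.2.1, h2.2.2.1⟩
    · rw [not_nonempty_iff_eq_empty.1 hne]
      simp
  · intro x hx y hy hyJ e z hz ez hzy hzS
    rw [mJ] at hx
    rw [mem_inter, mS, mS'] at hy
    rw [mS'] at hz
    rw [mS] at hzS
    exact joi h hf hx.1 hy.1.1 hz.1 hx.2 hy.1.2 hy.2.2 (fun hh => hyJ ((mJ _).2 ⟨hy.1.1, hh⟩)) e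
      hz.2 ez hzy hzS.2
  · intro x hx y hy hyJ e z hz ez hzy hzS
    rw [mJ] at hx
    rw [mem_inter, mS, mS'] at hy
    rw [mS] at hz
    rw [mS'] at hzS
    exact joi h hf.symm hx.1 hy.1.1 hz.1 hx.2.symm hy.2.2 hy.1.2
      (fun hh => hyJ ((mJ _).2 ⟨hy.1.1, hh.symm⟩)) e hz.2 ez hzy hzS.2

end GYA
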