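import Pool.Agent.GYA.A_BAS

set_option autoImplicit false
set_option linter.unusedSectionVars false

namespace GYA

open Finset Function GY7

variable {W : Type} [Fintype W] [DecidableEq W] {A N : SimpleGraph W} {D t : ℕ} [NeZero t]
  {x y : St W t} {k : Fin t} {w : W}

theorem nd_mv (h : Dat A N D t) (hx : IsSt A N x) (hk : Good A N x k) (hw : w ∈ blk A N x k) :
    nd A N (mv x k w) k = nd A N x k := by
  have h1 : x.2 w = k := ((mem_blk_good hk).mp hw).1
  have hne : w ≠ x.1 := by
    intro e
    exact notMem_blk (e ▸ hw)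
  unfold nd
  rw [mv_blk h hx hk hw]
  refine Prod.ext ?_ ?_
  · show update (update (update x.2 x.1 k) w 0) w k = update x.2 x.1 k
    rw [Function.update_idem]
    have h2 : (update x.2 x.1 k) w = k := by rw [Function.update_of_ne hne, h1]
    conv_rhs => rw [← Function.update_eq_self w (update x.2 x.1 k), h2]
  · show insert w (insert x.1 ((blk A N x k).erase w)) = insert x.1 (blk A N x k)
    rw [Finset.insert_comm, Finset.insert_erase hw]

theorem nod_back (z : St W t) (hz : z.2 z.1 = 0) (k : Fin t) :
    update (update z.2 z.1 k) z.1 0 = z.2 := by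
  rw [Function.update_idem, ← hz, Function.update_eq_self]

theorem nd_eq (h : Dat A N D t) (hx : IsSt A N x) (hy : IsSt A N y) (hkx : Good A N x k)
    (hky : Good A N y k) (e : nd A N x k = nd A N y k) (hne : x ≠ y) :
    y.1 ∈ blk A N x k ∧ y = mv x k y.1 := by
  have e1 : update x.2 x.1 k = update y.2 y.1 k := congrArg Prod.fst e
  have e2 : insert x.1 (blk A N x k) = insert y.1 (blk A N y k) := congrArg Prod.snd e
  have h1 : y.1 ∈ insert x.1 (blk A N x k) := by
    rw [e2]; exact Finset.mem_insert_self _ _
  have hy2 : y.2 = update (update x.2 x.1 k) y.1 0 := by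
    rw [e1]; exact (nod_back y hy.1 k).symm
  rcases Finset.mem_insert.mp h1 with h2 | h2
  · exfalso
    apply hne
    refine Prod.ext h2.symm ?_
    rw [hy2, h2]
    exact (nod_back x hx.1 k).symm
  · exact ⟨h2, Prod.ext rfl hy2⟩

open Classical in
/-- every node has exactly four states -/
theorem nd_card (h : Dat A N D t) (hx : IsSt A N x) (hk : Good A N x k) :
    (univ.filter (fun y : St W t => IsSt A N y ∧ Good A N y k ∧
      nd A N y k = nd A N x k)).card = 4 := by
  have hs : univ.filter (fun y : St W t => IsSt A N y ∧ Good A N y k ∧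
      nd A N y k = nd A N x k) = insert x ((blk A N x k).image (fun w => mv x k w)) := by
    ext y
    rw [Finset.mem_filter, Finset.mem_insert, Finset.mem_image]
    constructor
    · rintro ⟨-, h1, h2, h3⟩
      by_cases hxy : y = x
      · exact Or.inl hxy
      · obtain ⟨h4, h5⟩ := nd_eq h hx h1 hk h2 h3.symm (Ne.symm hxy)
        exact Or.inr ⟨y.1, h4, h5.symm⟩
    · rintro (rfl | ⟨w, hw, rfl⟩)
      · exact ⟨mem_univ _, hx, hk, rfl⟩
      · exact ⟨mem_univ _, mv_st h hx hk.1 hw, mv_good h hx hk hw, nd_mv h hx hk hw⟩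
  rw [hs, Finset.card_insert_of_notMem, Finset.card_image_of_injective, hk.1]
  · intro a b hab
    exact congrArg Prod.fst hab
  · intro hm
    obtain ⟨w, hw, e⟩ := Finset.mem_image.mp hm
    have e1 : w = x.1 := congrArg Prod.fst e
    exact notMem_blk (e1 ▸ hw)

end GYA
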