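import Pool.Agent.GYA.A_NGD

set_option autoImplicit false
set_option linter.unusedSectionVars false

namespace GYA

open Finset Function GY7

variable {W : Type} [Fintype W] [DecidableEq W] {t : ℕ} [NeZero t]

/-- The number of columns which are not joined to `a`, or for which no vertex of the block has `a`
as a good column. -/
noncomputable def nu (A N : SimpleGraph W) (x : St W t) (a : Fin t) : ℕ := by
  classical exact (univ.filter (fun b => Far a b ∧ NJ A N x a b)).card
    + (univ.filter (fun b => Good A N x b ∧ ∀ w ∈ blk A N x b, ¬ Good A N (mv x b w) a)).card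

variable {A N : SimpleGraph W} {D : ℕ}

open Classical in
theorem nu_sum (h : Dat A N D t) {x : St W t} (hx : IsSt A N x)
    (hav : (univ.filter (fun p : Fin t × Fin t => Far p.1 p.2 ∧ NJ A N x p.1 p.2)).card
      ≤ (4 * D + 3) * t) : ∑ a, nu A N x a ≤ 2 * (4 * D + 3) * t := by
  have e0 : ∀ a, nu A N x a = (univ.filter (fun b => Far a b ∧ NJ A N x a b)).card
      + (univ.filter (fun b => Good A N x b ∧ ∀ w ∈ blk A N x b,
        ¬ Good A N (mv x b w) a)).card := by
    intro a
    unfold nu
    congr
  rw [Finset.sum_congr rfl fun a _ => e0 a, Finset.sum_add_distrib]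
  have h1 : ∑ a, (univ.filter (fun b => Far a b ∧ NJ A N x a b)).card =
      (univ.filter (fun p : Fin t × Fin t => Far p.1 p.2 ∧ NJ A N x p.1 p.2)).card := by
    simp_rw [Finset.card_filter]
    rw [← Finset.univ_product_univ, Finset.sum_product]
  have h2 : ∑ a, (univ.filter (fun b => Good A N x b ∧ ∀ w ∈ blk A N x b,
      ¬ Good A N (mv x b w) a)).card ≤ (4 * D + 3) * t := by
    have e1 : ∑ a, (univ.filter (fun b => Good A N x b ∧ ∀ w ∈ blk A N x b,
        ¬ Good A N (mv x b w) a)).card =
        ∑ b, (univ.filter (fun a => Good A N x b ∧ ∀ w ∈ blk A N x b,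
          ¬ Good A N (mv x b w) a)).card := by
      simp_rw [Finset.card_filter]
      rw [Finset.sum_comm]
    rw [e1]
    have h3 : ∀ b : Fin t, (univ.filter (fun a => Good A N x b ∧ ∀ w ∈ blk A N x b,
        ¬ Good A N (mv x b w) a)).card ≤ 4 * D + 3 := by
      intro b
      by_cases hb : Good A N x b
      · obtain ⟨w, hw⟩ : (blk A N x b).Nonempty := by
          rw [← Finset.card_pos, hb.1]
          norm_num
        refine le_trans (card_le_card ?_) (ngood h (mv_st h hx hb.1 hw))
        intro a ha
        exact mem_filter.mpr ⟨mem_univ _, (mem_filter.mp ha).2.2 w hw⟩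
      · have h4 : (univ.filter (fun a => Good A N x b ∧ ∀ w ∈ blk A N x b,
            ¬ Good A N (mv x b w) a)) = ∅ := by
          rw [filter_eq_empty_iff]
          intro a _ ha
          exact hb ha.1
        rw [h4, Finset.card_empty]
        exact Nat.zero_le _
    refine (Finset.sum_le_sum fun b _ => h3 b).trans ?_
    rw [Finset.sum_const, Finset.card_univ, Fintype.card_fin, smul_eq_mul, mul_comm]
  have e3 : 2 * (4 * D + 3) * t = (4 * D + 3) * t + (4 * D + 3) * t := by ring
  rw [h1, e3]
  exact add_le_add hav h2

end GYA
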