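import Pool.Agent.GYA.Defs

set_option autoImplicit false
set_option linter.unusedSectionVars false

namespace GYA

open Finset Function GY7

variable {W : Type} [Fintype W] [DecidableEq W] {A N : SimpleGraph W} {D t : ℕ}

theorem SYS_C {j k : Fin t} {u v : W} : (cs A N t).C j k u v ↔
    (j = k ∧ N.Adj u v) ∨ ((j.val + 1 = k.val ∨ k.val + 1 = j.val) ∧ A.Adj u v) := Iff.rfl

/-- The sum of the costs over all columns. -/
theorem sum_cost (h : Dat A N D t) (ψ : W → Fin t) (v : W) :
    ∑ k, (cs A N t).cost ψ v k ≤ D ^ 2 + 2 * D := by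
  classical
  have h0 : ∑ k, (cs A N t).cost ψ v k
      = ∑ u, (univ.filter (fun k => (cs A N t).C k (ψ u) v u)).card := by
    unfold Sys.cost
    simp_rw [Finset.card_filter]
    rw [Finset.sum_comm]
  have h1 : ∀ u, (univ.filter (fun k => (cs A N t).C k (ψ u) v u)).card
      ≤ (if N.Adj v u then 1 else 0) + (if A.Adj v u then 2 else 0) := by
    intro u
    by_cases hadj : A.Adj v u
    · have hN : N.Adj v u := h.le _ _ hadj
      rw [if_pos hN, if_pos hadj]
      have h2 : ((univ.filter (fun k => (cs A N t).C k (ψ u) v u)).image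
          (fun k : Fin t => k.val)) ⊆ {(ψ u).val, (ψ u).val - 1, (ψ u).val + 1} := by
        intro n hn
        obtain ⟨k, hk, rfl⟩ := mem_image.mp hn
        have := SYS_C.mp (mem_filter.mp hk).2
        simp only [mem_insert, mem_singleton]
        rcases this with ⟨h, -⟩ | ⟨h, -⟩
        · left; rw [h]
        · omega
      have h3 := card_le_card h2
      rw [card_image_of_injective _ Fin.val_injective] at h3
      have h4 := Finset.card_le_three (a := (ψ u).val) (b := (ψ u).val - 1) (c := (ψ u).val + 1)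
      omega
    · rw [if_neg hadj]
      by_cases hN : N.Adj v u
      · rw [if_pos hN]
        have h2 : (univ.filter (fun k => (cs A N t).C k (ψ u) v u)) ⊆ {ψ u} := by
          intro k hk
          have := SYS_C.mp (mem_filter.mp hk).2
          rcases this with ⟨h, -⟩ | ⟨-, h⟩
          · simp [h]
          · exact absurd h hadj
        simpa using card_le_card h2
      · rw [if_neg hN]
        have h2 : (univ.filter (fun k => (cs A N t).C k (ψ u) v u)) = ∅ := by
          rw [filter_eq_empty_iff]
          intro k _ hk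
          rcases SYS_C.mp hk with ⟨-, h⟩ | ⟨-, h⟩
          · exact hN h
          · exact hadj h
        rw [h2]; simp
  rw [h0]
  refine (Finset.sum_le_sum (fun u _ => h1 u)).trans ?_
  rw [Finset.sum_add_distrib, ← Finset.card_filter]
  have h5 : (univ.filter (fun u => N.Adj v u)).card ≤ D ^ 2 := by
    have := h.degN v
    have e : nb N v = univ.filter (fun u => N.Adj v u) := by
      ext u
      simp [mem_nb]
    rwa [e] at this
  have h6 : ∑ u, (if A.Adj v u then 2 else 0) = 2 * (nb A v).card := by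
    have e : nb A v = univ.filter (fun u => A.Adj v u) := by
      ext u
      simp [mem_nb]
    rw [← Finset.sum_filter, Finset.sum_const, smul_eq_mul, mul_comm, e]
  rw [h6]
  have h7 := h.degA v
  omega

/-- In a placement of minimal energy all costs are at most three. -/
theorem cost_le_three (h : Dat A N D t) (φ : W → Fin t)
    (hφ : ∀ χ, (cs A N t).energy φ ≤ (cs A N t).energy χ) (v : W) :
    (cs A N t).cost φ v (φ v) ≤ 3 := by
  by_contra hcon
  push Not at hcon
  have h1 : ∀ k, 4 ≤ (cs A N t).cost φ v k := fun k =>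
    le_trans hcon ((cs A N t).min_cost hφ v k)
  have h2 := sum_cost h φ v
  have h3 : 4 * t ≤ ∑ k, (cs A N t).cost φ v k := by
    have : ∑ k : Fin t, 4 = 4 * t := by simp [mul_comm]
    rw [← this]
    exact Finset.sum_le_sum fun k _ => h1 k
  have h4 := h.t_ge
  have h5 := h.D_ge
  nlinarith

/-- By Brooks a minimal placement has a four-clique. -/
theorem k4_nonempty (h : Dat A N D t) {ψ : W → Fin t} (hψ : (cs A N t).IsMin ψ) :
    ((cs A N t).k4 ψ).Nonempty := by
  classical
  by_contra hemp
  rw [Finset.not_nonempty_iff_eq_empty] at hemp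
  have h3 := cost_le_three h ψ hψ.1
  obtain ⟨c, hc⟩ := brooks_three ((cs A N t).H ψ) (by
    intro v
    rw [← SimpleGraph.card_neighborFinset_eq_degree]
    refine le_trans (card_le_card ?_) (h3 v)
    intro w hw
    rw [SimpleGraph.mem_neighborFinset] at hw
    exact mem_filter.mpr ⟨mem_univ _, hw⟩) (by
    intro T hT4 hT
    have : T ∈ (cs A N t).k4 ψ := (cs A N t).mem_k4.mpr ⟨hT4, hT⟩
    rw [hemp] at this
    exact absurd this (Finset.notMem_empty T))
  apply h.notLab
  have ht := h.t_le
  refine ⟨fun v => (t + 1) * (c v).val + (ψ v).val, ?_, ?_, ?_⟩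
  · intro v
    have h1 : (c v).val ≤ 2 := by have := (c v).isLt; omega
    have h2 := (ψ v).isLt
    have h4 : (t + 1) * (c v).val ≤ (t + 1) * 2 := Nat.mul_le_mul_left _ h1
    change (t + 1) * (c v).val + (ψ v).val ≤ D ^ 2
    omega
  · intro u v huv hf
    have hu := (ψ u).isLt
    have hv := (ψ v).isLt
    have hcu := (c u).isLt
    have hcv := (c v).isLt
    have hf' : (t + 1) * (c u).val + (ψ u).val = (t + 1) * (c v).val + (ψ v).val := hf
    have h5 : ((c u).val = 0 ∨ (c u).val = 1 ∨ (c u).val = 2) := by omega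
    have h6 : ((c v).val = 0 ∨ (c v).val = 1 ∨ (c v).val = 2) := by omega
    have h7 : (c u).val = (c v).val ∧ (ψ u).val = (ψ v).val := by
      rcases h5 with h5 | h5 | h5 <;> rcases h6 with h6 | h6 | h6 <;> rw [h5, h6] at hf' ⊢ <;>
        omega
    exact hc u v (Or.inl ⟨Fin.ext h7.2, huv⟩) (Fin.ext h7.1)
  · intro u v huv
    have hu := (ψ u).isLt
    have hv := (ψ v).isLt
    have hcu := (c u).isLt
    have hcv := (c v).isLt
    change (t + 1) * (c u).val + (ψ u).val + 2 ≤ (t + 1) * (c v).val + (ψ v).val ∨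
      (t + 1) * (c v).val + (ψ v).val + 2 ≤ (t + 1) * (c u).val + (ψ u).val
    by_cases hcc : c u = c v
    · have hn : ¬ ((cs A N t).H ψ).Adj u v := fun h => hc u v h hcc
      have h1 : ψ u ≠ ψ v := fun h' => hn (Or.inl ⟨h', h.le _ _ huv⟩)
      have h2 : ¬ ((ψ u).val + 1 = (ψ v).val ∨ (ψ v).val + 1 = (ψ u).val) :=
        fun h => hn (Or.inr ⟨h, huv⟩)
      have h1' : (ψ u).val ≠ (ψ v).val := fun h => h1 (Fin.ext h)
      rw [hcc]
      omega
    · have h4 : (c u).val ≠ (c v).val := fun h => hcc (Fin.ext h)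
      have h5 : ((c u).val = 0 ∨ (c u).val = 1 ∨ (c u).val = 2) := by omega
      have h6 : ((c v).val = 0 ∨ (c v).val = 1 ∨ (c v).val = 2) := by omega
      rcases h5 with h5 | h5 | h5 <;> rcases h6 with h6 | h6 | h6 <;> rw [h5, h6] at h4 ⊢ <;>
        omega

/-- There is a state. -/
theorem exists_state [NeZero t] (h : Dat A N D t) : ∃ x : St W t, IsSt A N x := by
  obtain ⟨ψ, hψ⟩ := (cs A N t).exists_min
  obtain ⟨T, hT⟩ := k4_nonempty h hψ
  have hc := ((cs A N t).mem_k4.mp hT).1
  obtain ⟨v, hv⟩ : T.Nonempty := by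
    rw [← Finset.card_pos, hc]
    norm_num
  have e : update (update ψ v 0) v (ψ v) = ψ := by
    rw [Function.update_idem, Function.update_eq_self]
  refine ⟨(v, update ψ v 0), Function.update_self _ _ _, ψ v, ?_⟩
  change (cs A N t).IsMin (update (update ψ v 0) v (ψ v)) ∧
    ∃ T ∈ (cs A N t).k4 (update (update ψ v 0) v (ψ v)), v ∈ T
  rw [e]
  exact ⟨hψ, T, hT, hv⟩

end GYA
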