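import Pool.Agent.GYA.A_AVG
import Pool.Agent.GYA.A_AGR
import Pool.Agent.GYA.A_DRP
import Pool.Agent.GYA.A_NUS

set_option autoImplicit false
set_option linter.unusedSectionVars false

namespace GYA

open Finset Function GY7

namespace Thm

variable {W : Type} [Fintype W] [DecidableEq W] {A N : SimpleGraph W} {D t : ℕ} [NeZero t]

open Classical in
theorem near_card (a : Fin t) : (univ.filter (fun c => ¬ Far a c)).card ≤ 3 := by
  have h1 : ((univ.filter (fun c => ¬ Far a c)).image (fun c : Fin t => c.val))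
      ⊆ {a.val, a.val - 1, a.val + 1} := by
    intro n hn
    obtain ⟨c, hc, rfl⟩ := mem_image.mp hn
    have hc' := (mem_filter.mp hc).2
    unfold Far at hc'
    simp only [mem_insert, mem_singleton]
    omega
  have h2 := card_le_card h1
  rw [card_image_of_injective _ Fin.val_injective] at h2
  exact h2.trans card_le_three

open Classical in
/-- two vertices of different blocks are near to each other -/
theorem near_of_blocks (h : Dat A N D t) {x : St W t} (hx : IsSt A N x) {a b : Fin t}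
    (ha : Good A N x a) (hb : Good A N x b) (hab : a ≠ b)
    (hna : 2 * nu A N x a + 13 * D + 16 ≤ t) (hnb : 2 * nu A N x b + 13 * D + 16 ≤ t)
    {y₁ y₂ : W} (hy₁ : y₁ ∈ blk A N x a) (hy₂ : y₂ ∈ blk A N x b) : N.Adj y₁ y₂ := by
  have e1 : nu A N x a = (univ.filter (fun c => Far a c ∧ NJ A N x a c)).card
    + (univ.filter (fun c => Good A N x c ∧ ∀ w ∈ blk A N x c,
        ¬ Good A N (mv x c w) a)).card := by
    unfold nu
    congr
  have e2 : nu A N x b = (univ.filter (fun c => Far b c ∧ NJ A N x b c)).card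
    + (univ.filter (fun c => Good A N x c ∧ ∀ w ∈ blk A N x c,
        ¬ Good A N (mv x c w) b)).card := by
    unfold nu
    congr
  have c1 := ngood h hx
  have c2 := near_card a
  have c3 := near_card b
  have c4 : ((nb A x.1).image x.2).card ≤ D := card_image_le.trans (h.degA x.1)
  have c5 := ngood h (mv_st h hx ha.1 hy₁)
  have c6 := ngood h (mv_st h hx hb.1 hy₂)
  obtain ⟨c, hc⟩ : ∃ c : Fin t, c ∉ univ.filter (fun k => ¬ Good A N x k) ∪
      univ.filter (fun c => ¬ Far a c) ∪ univ.filter (fun c => ¬ Far b c) ∪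
      (nb A x.1).image x.2 ∪ univ.filter (fun k => ¬ Good A N (mv x a y₁) k) ∪
      univ.filter (fun k => ¬ Good A N (mv x b y₂) k) ∪
      univ.filter (fun c => Far a c ∧ NJ A N x a c) ∪
      univ.filter (fun c => Good A N x c ∧ ∀ w ∈ blk A N x c, ¬ Good A N (mv x c w) a) ∪
      univ.filter (fun c => Far b c ∧ NJ A N x b c) ∪
      univ.filter (fun c => Good A N x c ∧ ∀ w ∈ blk A N x c, ¬ Good A N (mv x c w) b) := by
    by_contra hcon
    push Not at hcon
    have h1 := card_le_card (fun c _ => hcon c : (univ : Finset (Fin t)) ⊆ _)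
    rw [card_univ, Fintype.card_fin] at h1
    have g1 := card_union_le (univ.filter (fun k => ¬ Good A N x k))
      (univ.filter (fun c => ¬ Far a c))
    have g2 := card_union_le (univ.filter (fun k => ¬ Good A N x k) ∪
      univ.filter (fun c => ¬ Far a c)) (univ.filter (fun c => ¬ Far b c))
    have g3 := card_union_le (univ.filter (fun k => ¬ Good A N x k) ∪
      univ.filter (fun c => ¬ Far a c) ∪ univ.filter (fun c => ¬ Far b c))
      ((nb A x.1).image x.2)
    have g4 := card_union_le (univ.filter (fun k => ¬ Good A N x k) ∪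
      univ.filter (fun c => ¬ Far a c) ∪ univ.filter (fun c => ¬ Far b c) ∪
      (nb A x.1).image x.2) (univ.filter (fun k => ¬ Good A N (mv x a y₁) k))
    have g5 := card_union_le (univ.filter (fun k => ¬ Good A N x k) ∪
      univ.filter (fun c => ¬ Far a c) ∪ univ.filter (fun c => ¬ Far b c) ∪
      (nb A x.1).image x.2 ∪ univ.filter (fun k => ¬ Good A N (mv x a y₁) k))
      (univ.filter (fun k => ¬ Good A N (mv x b y₂) k))
    have g6 := card_union_le (univ.filter (fun k => ¬ Good A N x k) ∪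
      univ.filter (fun c => ¬ Far a c) ∪ univ.filter (fun c => ¬ Far b c) ∪
      (nb A x.1).image x.2 ∪ univ.filter (fun k => ¬ Good A N (mv x a y₁) k) ∪
      univ.filter (fun k => ¬ Good A N (mv x b y₂) k))
      (univ.filter (fun c => Far a c ∧ NJ A N x a c))
    have g7 := card_union_le (univ.filter (fun k => ¬ Good A N x k) ∪
      univ.filter (fun c => ¬ Far a c) ∪ univ.filter (fun c => ¬ Far b c) ∪
      (nb A x.1).image x.2 ∪ univ.filter (fun k => ¬ Good A N (mv x a y₁) k) ∪
      univ.filter (fun k => ¬ Good A N (mv x b y₂) k) ∪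
      univ.filter (fun c => Far a c ∧ NJ A N x a c))
      (univ.filter (fun c => Good A N x c ∧ ∀ w ∈ blk A N x c, ¬ Good A N (mv x c w) a))
    have g8 := card_union_le (univ.filter (fun k => ¬ Good A N x k) ∪
      univ.filter (fun c => ¬ Far a c) ∪ univ.filter (fun c => ¬ Far b c) ∪
      (nb A x.1).image x.2 ∪ univ.filter (fun k => ¬ Good A N (mv x a y₁) k) ∪
      univ.filter (fun k => ¬ Good A N (mv x b y₂) k) ∪
      univ.filter (fun c => Far a c ∧ NJ A N x a c) ∪
      univ.filter (fun c => Good A N x c ∧ ∀ w ∈ blk A N x c, ¬ Good A N (mv x c w) a))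
      (univ.filter (fun c => Far b c ∧ NJ A N x b c))
    have g9 := card_union_le (univ.filter (fun k => ¬ Good A N x k) ∪
      univ.filter (fun c => ¬ Far a c) ∪ univ.filter (fun c => ¬ Far b c) ∪
      (nb A x.1).image x.2 ∪ univ.filter (fun k => ¬ Good A N (mv x a y₁) k) ∪
      univ.filter (fun k => ¬ Good A N (mv x b y₂) k) ∪
      univ.filter (fun c => Far a c ∧ NJ A N x a c) ∪
      univ.filter (fun c => Good A N x c ∧ ∀ w ∈ blk A N x c, ¬ Good A N (mv x c w) a) ∪
      univ.filter (fun c => Far b c ∧ NJ A N x b c))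
      (univ.filter (fun c => Good A N x c ∧ ∀ w ∈ blk A N x c, ¬ Good A N (mv x c w) b))
    omega
  simp only [mem_union, mem_filter, mem_univ, true_and, not_or, not_not, mem_image,
    not_and] at hc
  obtain ⟨⟨⟨⟨⟨⟨⟨⟨⟨d1, d2⟩, d3⟩, d4⟩, d5⟩, d6⟩, d7⟩, d8⟩, d9⟩, d10⟩ := hc
  have hja : ¬ NJ A N x a c := d7 d2
  have hjb : ¬ NJ A N x b c := d9 d3
  have hwa : ∃ w ∈ blk A N x c, Good A N (mv x c w) a := by
    have := d8 d1
    push Not at this
    exact this
  have hwb : ∃ w ∈ blk A N x c, Good A N (mv x c w) b := by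
    have := d10 d1
    push Not at this
    exact this
  have hvc : ∀ u, A.Adj x.1 u → x.2 u ≠ c := by
    intro u hu hxu
    exact d4 ⟨u, mem_nb.mpr hu, hxu⟩
  obtain ⟨w, hw, h3, h3'⟩ := agr1 h hx d2 ha d1 hja hwa
  have h1' := agr2 h hx d2 ha d1 hja hwa hy₁ d5
  have h2' := agr2 h hx d3 hb d1 hjb hwb hy₂ d6
  exact drp h hx hab d2 d3 ha hb d1 hvc hy₁ hy₂ hw d5 h1' d6 h2' h3 h3'

theorem arith {D t b S : ℕ} (hD : 20000 ≤ D) (ht : D ^ 2 ≤ 3 * t + 3)
    (hS : S ≤ 2 * (4 * D + 3) * t) (hb : b * (t + 1) ≤ 2 * S + b * (13 * D + 16)) :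
    100 * b ≤ 401 * (4 * D + 3) := by
  by_contra hcon
  push Not at hcon
  have h1 : 6666 * D ≤ t := by nlinarith
  obtain ⟨s, hs⟩ : ∃ s, t = s + (13 * D + 15) := ⟨t - (13 * D + 15), by omega⟩
  have h2 : b * s ≤ 4 * (4 * D + 3) * t := by
    rw [hs] at hb ⊢
    nlinarith
  have h3 : 401 * (4 * D + 3) * s < 100 * (b * s) := by
    have hs0 : 0 < s := by omega
    nlinarith
  have h4 : 401 * (4 * D + 3) * s < 400 * (4 * D + 3) * t := by nlinarith
  have h5 : (4 * D + 3) * (401 * s) < (4 * D + 3) * (400 * t) := by nlinarith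
  have h6 : 401 * s < 400 * t := Nat.lt_of_mul_lt_mul_left h5
  omega

end Thm

open Thm in
/-- **Theorem A** (a near-clique). -/
theorem near_clique {W : Type} [Fintype W] [DecidableEq W] (A N : SimpleGraph W) (D : ℕ)
    (hD : 20000 ≤ D) (hle : ∀ u v, A.Adj u v → N.Adj u v) (hA : ∀ v, (nb A v).card ≤ D)
    (hN : ∀ v, (nb N v).card ≤ D ^ 2)
    (hno : ¬ ∃ f : W → ℕ, (∀ v, f v ≤ D ^ 2) ∧ (∀ u v, N.Adj u v → f u ≠ f v) ∧
      (∀ u v, A.Adj u v → f u + 2 ≤ f v ∨ f v + 2 ≤ f u)) :
    ∃ K : Finset W, (∀ a ∈ K, ∀ b ∈ K, a ≠ b → N.Adj a b) ∧ D ^ 2 + 1 ≤ K.card + 61 * D := by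
  classical
  obtain ⟨t, ht⟩ : ∃ t, t = (D ^ 2 - 1) / 3 := ⟨_, rfl⟩
  have hD2 : 20000 * D ≤ D ^ 2 := by nlinarith
  have ht1 : 3 * t + 2 ≤ D ^ 2 + 1 := by omega
  have ht2 : D ^ 2 ≤ 3 * t + 3 := by omega
  have htpos : t ≠ 0 := by omega
  have : NeZero t := ⟨htpos⟩
  have h : Dat A N D t := ⟨hle, hA, hN, ht1, ht2, hD, hno⟩
  obtain ⟨x, hx, hav⟩ := avg h
  have hnu := nu_sum h hx hav
  obtain ⟨Gs, hGs⟩ : ∃ Gs : Finset (Fin t), Gs = univ.filter (fun a => Good A N x a ∧
    2 * nu A N x a + 13 * D + 16 ≤ t) := ⟨_, rfl⟩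
  obtain ⟨Bs, hBs⟩ : ∃ Bs : Finset (Fin t), Bs = univ.filter (fun a =>
    t < 2 * nu A N x a + 13 * D + 16) := ⟨_, rfl⟩
  have hNg := ngood h hx
  have hcov : t ≤ Gs.card + Bs.card + (univ.filter (fun k => ¬ Good A N x k)).card := by
    have h1 : (univ : Finset (Fin t)) ⊆ Gs ∪ Bs ∪ univ.filter (fun k => ¬ Good A N x k) := by
      intro a _
      rw [hGs, hBs]
      simp only [mem_union, mem_filter, mem_univ, true_and]
      by_cases h1 : Good A N x a
      · by_cases h2 : 2 * nu A N x a + 13 * D + 16 ≤ t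
        · exact Or.inl (Or.inl ⟨h1, h2⟩)
        · exact Or.inl (Or.inr (by omega))
      · exact Or.inr h1
    have h2 := card_le_card h1
    rw [card_univ, Fintype.card_fin] at h2
    have h3 := card_union_le (Gs ∪ Bs) (univ.filter (fun k => ¬ Good A N x k))
    have h4 := card_union_le Gs Bs
    omega
  have hBc : 100 * Bs.card ≤ 401 * (4 * D + 3) := by
    refine arith hD ht2 hnu ?_
    have h1 : ∑ a ∈ Bs, (t + 1) ≤ ∑ a ∈ Bs, (2 * nu A N x a + (13 * D + 16)) := by
      refine sum_le_sum fun a ha => ?_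
      rw [hBs] at ha
      have := (mem_filter.mp ha).2
      omega
    rw [sum_const, smul_eq_mul, sum_add_distrib, sum_const, smul_eq_mul, ← mul_sum] at h1
    have h2 : ∑ a ∈ Bs, nu A N x a ≤ ∑ a, nu A N x a :=
      sum_le_sum_of_subset (subset_univ _)
    omega
  refine ⟨insert x.1 (Gs.biUnion (fun a => blk A N x a)), ?_, ?_⟩
  · have hvb : ∀ b ∈ Gs.biUnion (fun a => blk A N x a), N.Adj x.1 b := by
      intro b hb
      obtain ⟨k, hk, hbk⟩ := mem_biUnion.mp hb
      rw [hGs] at hk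
      exact ((mem_blk_good (mem_filter.mp hk).2.1).mp hbk).2
    intro a ha b hb hab
    rcases mem_insert.mp ha with rfl | ha
    · rcases mem_insert.mp hb with rfl | hb
      · exact absurd rfl hab
      · exact hvb b hb
    · rcases mem_insert.mp hb with rfl | hb
      · exact (hvb a ha).symm
      · obtain ⟨k, hk, hak⟩ := mem_biUnion.mp ha
        obtain ⟨l, hl, hbl⟩ := mem_biUnion.mp hb
        rw [hGs] at hk hl
        obtain ⟨k1, k2⟩ := (mem_filter.mp hk).2
        obtain ⟨l1, l2⟩ := (mem_filter.mp hl).2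
        by_cases hkl : k = l
        · subst hkl
          exact blk_near h hx k1 hak hbl hab
        · exact near_of_blocks h hx k1 l1 hkl k2 l2 hak hbl
  · have hc : (insert x.1 (Gs.biUnion (fun a => blk A N x a))).card = 3 * Gs.card + 1 := by
      rw [card_insert_of_notMem, card_biUnion]
      · rw [sum_congr rfl (g := fun _ => 3), sum_const, smul_eq_mul, mul_comm]
        intro a ha
        rw [hGs] at ha
        exact (mem_filter.mp ha).2.1.1
      · intro a ha b hb hab
        rw [hGs] at ha hb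
        have ga := (mem_filter.mp ha).2.1
        have gb := (mem_filter.mp hb).2.1
        refine disjoint_left.mpr fun u hu hu' => hab ?_
        rw [← ((mem_blk_good ga).mp hu).1, ← ((mem_blk_good gb).mp hu').1]
      · intro hmem
        obtain ⟨k, hk, hxk⟩ := mem_biUnion.mp hmem
        exact notMem_blk hxk
    rw [hc]
    omega

end GYA
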