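import Pool.Agent.GY7.Energy
import Pool.Agent.GY7.Brooks

set_option autoImplicit false
set_option linter.unusedSectionVars false

/-!
# The Griggs-Yeh conjecture for large maximum degree: definitions (part A)

See `PROOF.md`. `A ≤ N` are two graphs on a finite set `W` (adjacent, near); the vertices are put
into `t` columns. A state is a pair `x = (v, ψ)`: the vertex `x.1` is in hand, `x.2` is the placement
of the other vertices (`x.2 x.1 = 0` is a dummy value).
-/

namespace GYA

open Finset Function GY7

/-- The set of neighbours. -/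
noncomputable def nb {V : Type} [Fintype V] (G : SimpleGraph V) (v : V) : Finset V := by
  classical exact univ.filter (fun u => G.Adj v u)

theorem mem_nb {V : Type} [Fintype V] {G : SimpleGraph V} {v u : V} : u ∈ nb G v ↔ G.Adj v u := by
  classical
  simp [nb]

variable {W : Type} [Fintype W] [DecidableEq W]

/-- The conflict system: the same column and near, or neighbouring columns and adjacent. -/
def cs (A N : SimpleGraph W) (t : ℕ) : Sys W (Fin t) where
  C j k u v := (j = k ∧ N.Adj u v) ∨ ((j.val + 1 = k.val ∨ k.val + 1 = j.val) ∧ A.Adj u v)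
  symm := by
    rintro j k u v (⟨h1, h2⟩ | ⟨h1, h2⟩)
    · exact Or.inl ⟨h1.symm, h2.symm⟩
    · exact Or.inr ⟨h1.symm, h2.symm⟩
  irr := by
    rintro j k u (⟨-, h⟩ | ⟨-, h⟩)
    · exact N.loopless.irrefl u h
    · exact A.loopless.irrefl u h

/-- The hypotheses of part A: degrees, the number of columns, and no labelling. -/
structure Dat (A N : SimpleGraph W) (D t : ℕ) : Prop where
  le : ∀ u v, A.Adj u v → N.Adj u v
  degA : ∀ v, (nb A v).card ≤ D
  degN : ∀ v, (nb N v).card ≤ D ^ 2
  t_le : 3 * t + 2 ≤ D ^ 2 + 1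
  t_ge : D ^ 2 ≤ 3 * t + 3
  D_ge : 20000 ≤ D
  notLab : ¬ ∃ f : W → ℕ, (∀ v, f v ≤ D ^ 2) ∧ (∀ u v, N.Adj u v → f u ≠ f v) ∧
    (∀ u v, A.Adj u v → f u + 2 ≤ f v ∨ f v + 2 ≤ f u)

/-- Columns at distance one. -/
def Nxt {t : ℕ} (k k' : Fin t) : Prop := k.val + 1 = k'.val ∨ k'.val + 1 = k.val

/-- Columns at distance at least two. -/
def Far {t : ℕ} (k k' : Fin t) : Prop := k.val + 2 ≤ k'.val ∨ k'.val + 2 ≤ k.val

/-- Pairs of a vertex (in hand) and a placement of the others. -/
abbrev St (W : Type) (t : ℕ) := W × (W → Fin t)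

section

variable (A N : SimpleGraph W) {t : ℕ}

/-- The vertices which conflict with the vertex in hand if it is put into column `k`. -/
noncomputable def blk (x : St W t) (k : Fin t) : Finset W := by
  classical exact univ.filter (fun u => (cs A N t).C k (x.2 u) x.1 u)

/-- No neighbour of the vertex in hand lies in a column next to `k`. -/
def Clean (x : St W t) (k : Fin t) : Prop := ∀ u, A.Adj x.1 u → ¬ Nxt (x.2 u) k

/-- `k` is a good column for `x`: exactly three conflicts, all of them inside column `k`. -/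
def Good (x : St W t) (k : Fin t) : Prop := (blk A N x k).card = 3 ∧ Clean A x k

/-- The node of the state `x` in column `k`. -/
noncomputable def nd (x : St W t) (k : Fin t) : (W → Fin t) × Finset W :=
  (update x.2 x.1 k, insert x.1 (blk A N x k))

variable [NeZero t]

/-- The move: put the vertex in hand into column `k` and take `w` into the hand. -/
def mv (x : St W t) (k : Fin t) (w : W) : St W t := (w, update (update x.2 x.1 k) w 0)

/-- `x` is a state: for some column `k` the full placement is minimal and the vertex lies in a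
four-clique. -/
def IsSt (x : St W t) : Prop :=
  x.2 x.1 = 0 ∧ ∃ k, (cs A N t).IsMin (update x.2 x.1 k) ∧
    ∃ T ∈ (cs A N t).k4 (update x.2 x.1 k), x.1 ∈ T

/-- Some vertex of block `k`, for which `k'` is good after it was taken out, sees block `k'`. -/
def Sees (x : St W t) (k k' : Fin t) : Prop :=
  ∃ w ∈ blk A N x k, Good A N (mv x k w) k' ∧ ∀ u ∈ blk A N x k', N.Adj w u

/-- The blocks `k` and `k'` are both good and not joined. -/
def NJ (x : St W t) (k k' : Fin t) : Prop :=
  Good A N x k ∧ Good A N x k' ∧ ¬ Sees A N x k k' ∧ ¬ Sees A N x k' k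

end

/-- `x` and `y` have the same placement outside of the columns `k`, `k'`. -/
def Gm {t : ℕ} (k k' : Fin t) (x y : St W t) : Prop :=
  ∀ u j, j ≠ k → j ≠ k' → ((u ≠ x.1 ∧ x.2 u = j) ↔ (u ≠ y.1 ∧ y.2 u = j))

theorem NJ.symm {A N : SimpleGraph W} {t : ℕ} [NeZero t] {x : St W t} {k k' : Fin t}
    (h : NJ A N x k k') : NJ A N x k' k := ⟨h.2.1, h.1, h.2.2.2, h.2.2.1⟩

theorem Far.symm {t : ℕ} {k k' : Fin t} (h : Far k k') : Far k' k := Or.symm h

theorem Far.ne {t : ℕ} {k k' : Fin t} (h : Far k k') : k ≠ k' := by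
  rintro rfl
  rcases h with h | h <;> omega

theorem mem_blk {A N : SimpleGraph W} {t : ℕ} {x : St W t} {k : Fin t} {u : W} :
    u ∈ blk A N x k ↔ (cs A N t).C k (x.2 u) x.1 u := by
  classical
  simp [blk]

theorem card_blk {A N : SimpleGraph W} {t : ℕ} (x : St W t) (k : Fin t) :
    (blk A N x k).card = (cs A N t).cost x.2 x.1 k := by
  classical
  unfold blk Sys.cost
  congr

end GYA
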